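import Pool.Agent.Helper93.TLE.Defs

/-!
# Project TK (levels `3 p^n`, `p ≠ 3`, Atkin–Lehner sign at `3` equal to `+1`): symbols

A newform `f` of weight two and level `3 p^n` with `f | W_3 = f` gives a potential `G` (variable `z`) with `G∘γ ≈ G` for `γ` in `Γ₀(3 p^n)` and for the integral matrices
`(3a b; 3 p^n c 3d)` of determinant three.
-/

set_option autoImplicit false

namespace Pool.Agent.Helper4.TK

open Pool.Agent.Helper14.CV (Homog EqC act Tl)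
open Pool.Agent.Helper28.WK (Tw evw)

/-- Words with primes different from `3` and `p`. -/
def OkK (p : ℕ) (ls : List ℕ) : Prop := ∀ l ∈ ls, l.Prime ∧ l ≠ p ∧ l ≠ 3

/-- Integral matrices `(a b; c d)` of determinant one with `3 ∣ c`, or of determinant three with `a`, `c`, `d` divisible by three. -/
def KTy (a b c d : ℤ) : Prop :=
  (a * d - b * c = 1 ∧ (3 : ℤ) ∣ c) ∨
    (a * d - b * c = 3 ∧ (3 : ℤ) ∣ a ∧ (3 : ℤ) ∣ c ∧ (3 : ℤ) ∣ d)

theorem KTy.det_ne {a b c d : ℤ} (h : KTy a b c d) : a * d - b * c ≠ 0 := by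
  rcases h with h | h
  · rw [h.1]; exact one_ne_zero
  · rw [h.1]; exact three_ne_zero

section

variable {R : Type} [AddCommGroup R]

/-- Potentials of symbols for the group of all matrices `KTy a b c d` with `p^r ∣ b`, `p^s ∣ c`. -/
def SymK (p r s : ℕ) (G : ℤ → ℤ → R) : Prop :=
  Homog G ∧ ∀ a b c d : ℤ, KTy a b c d → (p : ℤ) ^ r ∣ b → (p : ℤ) ^ s ∣ c → EqC (act a b c d G) G

theorem SymK.add {p r s : ℕ} {G H : ℤ → ℤ → R} (h : SymK p r s G) (h' : SymK p r s H) :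
    SymK p r s (G + H) :=
  ⟨h.1.add h'.1, fun a b c d hd hb hc => (h.2 a b c d hd hb hc).add (h'.2 a b c d hd hb hc)⟩

theorem SymK.neg {p r s : ℕ} {G : ℤ → ℤ → R} (h : SymK p r s G) : SymK p r s (-G) :=
  ⟨h.1.neg, fun a b c d hd hb hc => (h.2 a b c d hd hb hc).neg⟩

theorem SymK.smul {S : Type} [Monoid S] [DistribMulAction S R] (x : S) {p r s : ℕ}
    {G : ℤ → ℤ → R} (h : SymK p r s G) : SymK p r s (x • G) :=
  ⟨h.1.smul x, fun a b c d hd hb hc => (h.2 a b c d hd hb hc).smul x⟩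

theorem SymK.zero (p r s : ℕ) : SymK p r s (0 : ℤ → ℤ → R) :=
  ⟨fun _ _ _ _ _ => rfl, fun _ _ _ _ _ _ _ => Pool.Agent.Helper14.CV.EqC.refl _⟩

/-- Scalar multiples of elements of the group. -/
theorem SymK.mem {p r s : ℕ} {G : ℤ → ℤ → R} (h : SymK p r s G) (k a b c d : ℤ) (hk : k ≠ 0)
    (hd : KTy a b c d) (hb : (p : ℤ) ^ r ∣ b) (hc : (p : ℤ) ^ s ∣ c) :
    EqC (act (k * a) (k * b) (k * c) (k * d) G) G :=
  (h.1.scale k hk hd.det_ne).trans (h.2 a b c d hd hb hc)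

/-- A symbol composed with a matrix `(x y; z w)` of nonzero determinant which normalises the group is a symbol. -/
theorem SymK.act {p r s r' s' : ℕ} {G : ℤ → ℤ → R} (h : SymK p r s G) {x y z w : ℤ}
    (hdet : x * w - y * z ≠ 0)
    (hn : ∀ a b c d : ℤ, KTy a b c d → (p : ℤ) ^ r' ∣ b → (p : ℤ) ^ s' ∣ c →
      ∃ a' b' c' d' : ℤ, KTy a' b' c' d' ∧ (p : ℤ) ^ r ∣ b' ∧ (p : ℤ) ^ s ∣ c' ∧
        x * a + y * c = a' * x + b' * z ∧ x * b + y * d = a' * y + b' * w ∧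
        z * a + w * c = c' * x + d' * z ∧ z * b + w * d = c' * y + d' * w) :
    SymK p r' s' (act x y z w G) := by
  refine ⟨h.1.act hdet, fun a b c d hd hb hc => ?_⟩
  obtain ⟨a', b', c', d', hd', hb', hc', e1, e2, e3, e4⟩ := hn a b c d hd hb hc
  rw [Pool.Agent.Helper14.CV.act_act, e1, e2, e3, e4, ← Pool.Agent.Helper14.CV.act_act]
  exact (h.2 a' b' c' d' hd' hb' hc').act hdet

end

/-- The sum over the translations by `i/p`. -/
def tSK (p : ℕ) (G : ℤ → ℤ → ℂ) : ℤ → ℤ → ℂ := ∑ i ∈ Finset.range p, act p i 0 p G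

/-- The sum over the lower translations `(1 0; 3 i p^(n-1) 1)`. -/
def sSK (p n : ℕ) (G : ℤ → ℤ → ℂ) : ℤ → ℤ → ℂ :=
  ∑ i ∈ Finset.range p, act 1 0 (3 * i * (p : ℤ) ^ (n - 1)) 1 G

/-- New symbols of level `3 p^n` with `W = -1` and `* = +1`. -/
def NewSymK (p n : ℕ) (G : ℤ → ℤ → ℂ) : Prop :=
  SymK p 0 n G ∧ EqC (tSK p G) 0 ∧ EqC (sSK p n G) 0 ∧
    EqC (act 0 (-1) (3 * (p : ℤ) ^ n) 0 G) (-G) ∧ EqC (act (-1) 0 0 1 G) G

open Classical in
/-- The values at all words in the `T_l`, `l ≠ 3, p` prime (`Tl l 1`), as a linear map. -/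
noncomputable def evLK (p : ℕ) : (ℤ → ℤ → ℂ) →ₗ[ℂ] (List ℕ → ℂ) where
  toFun G ls := if OkK p ls then evw 1 ls G else 0
  map_add' G H := by
    funext ls
    simp only [Pi.add_apply]
    split_ifs
    · simp only [evw, Pool.Agent.Helper14.W5.Tw_add, Pi.add_apply]; abel
    · simp
  map_smul' s G := by
    funext ls
    simp only [Pi.smul_apply, RingHom.id_apply]
    split_ifs
    · simp only [evw, Pool.Agent.Helper14.W5.Tw_smul, Pi.smul_apply, smul_sub]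
    · simp

theorem tSK_add (p : ℕ) (G H : ℤ → ℤ → ℂ) : tSK p (G + H) = tSK p G + tSK p H := by
  unfold tSK
  rw [← Finset.sum_add_distrib]
  exact Finset.sum_congr rfl fun i _ => rfl

theorem sSK_add (p n : ℕ) (G H : ℤ → ℤ → ℂ) : sSK p n (G + H) = sSK p n G + sSK p n H := by
  unfold sSK
  rw [← Finset.sum_add_distrib]
  exact Finset.sum_congr rfl fun i _ => rfl

theorem tSK_smul (p : ℕ) (s : ℂ) (G : ℤ → ℤ → ℂ) : tSK p (s • G) = s • tSK p G := by
  unfold tSK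
  rw [Finset.smul_sum]
  exact Finset.sum_congr rfl fun i _ => rfl

theorem sSK_smul (p n : ℕ) (s : ℂ) (G : ℤ → ℤ → ℂ) : sSK p n (s • G) = s • sSK p n G := by
  unfold sSK
  rw [Finset.smul_sum]
  exact Finset.sum_congr rfl fun i _ => rfl

theorem NewSymK.add {p n : ℕ} {G H : ℤ → ℤ → ℂ} (h : NewSymK p n G) (h' : NewSymK p n H) :
    NewSymK p n (G + H) := by
  obtain ⟨a1, a2, a3, a4, a5⟩ := h
  obtain ⟨b1, b2, b3, b4, b5⟩ := h'
  refine ⟨SymK.add a1 b1, ?_, ?_, ?_, a5.add b5⟩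
  · rw [tSK_add]; have := a2.add b2; rwa [add_zero] at this
  · rw [sSK_add]; have := a3.add b3; rwa [add_zero] at this
  · rw [neg_add]; exact a4.add b4

theorem NewSymK.smul {p n : ℕ} (s : ℂ) {G : ℤ → ℤ → ℂ} (h : NewSymK p n G) :
    NewSymK p n (s • G) := by
  obtain ⟨a1, a2, a3, a4, a5⟩ := h
  refine ⟨SymK.smul s a1, ?_, ?_, ?_, a5.smul s⟩
  · rw [tSK_smul]; have := a2.smul s; rwa [smul_zero] at this
  · rw [sSK_smul]; have := a3.smul s; rwa [smul_zero] at this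
  · rw [← smul_neg]; exact a4.smul s

/-- New symbols of level `3 p^n` (`W = -1`, `* = +1`) as a subspace. -/
def NSK (p n : ℕ) : Submodule ℂ (ℤ → ℤ → ℂ) where
  carrier := {G | NewSymK p n G}
  add_mem' h h' := NewSymK.add h h'
  zero_mem' := by
    refine ⟨SymK.zero p 0 n, ?_, ?_, ?_, Pool.Agent.Helper14.CV.EqC.refl _⟩
    · exact ⟨0, fun p q _ => by simp [tSK, Pool.Agent.Helper14.CV.act]⟩
    · exact ⟨0, fun p q _ => by simp [sSK, Pool.Agent.Helper14.CV.act]⟩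
    · exact ⟨0, fun p q _ => by simp [Pool.Agent.Helper14.CV.act]⟩
  smul_mem' s _ h := NewSymK.smul s h

/-- Symbols of level `3 p^n` as a subspace. -/
def XSK (p n : ℕ) : Submodule ℂ (ℤ → ℤ → ℂ) where
  carrier := {G | SymK p 0 n G}
  add_mem' h h' := SymK.add h h'
  zero_mem' := SymK.zero p 0 n
  smul_mem' s _ h := SymK.smul s h

/-- The dimension of the new symbols of level `3·5^n` (`W = -1`, `* = +1`), `n ≥ 3`. -/
def ddK5 (n : ℕ) : ℕ :=
  if n % 2 = 1 then 8 * 25 ^ (n / 2 - 1) + 4 * 5 ^ (n / 2 - 1) else 40 * 25 ^ (n / 2 - 2)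

/-- B3b with dimension `D`: the values at words of the symbols of level `n = 2` lie in a space of dimension `D`. -/
def B3bK (p D : ℕ) : Prop := ∃ e : Fin D → List ℕ → ℂ, ∀ G : ℤ → ℤ → ℂ, SymK p 0 2 G →
  ∃ x : Fin D → ℂ, ∀ ls : List ℕ, OkK p ls → evw 1 ls G = ∑ i, x i * e i ls

/-- UB: the space of new symbols of level `3 p^n` modulo constants has dimension at most `dd n` (`n ≥ 3`). -/
def UBK (p : ℕ) (dd : ℕ → ℕ) : Prop := ∀ n : ℕ, 3 ≤ n → ∃ Θ : NSK p n →ₗ[ℂ] (Fin (dd n) → ℂ),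
  ∀ G : NSK p n, Θ G = 0 → EqC (G : ℤ → ℤ → ℂ) 0

/-- LB: the image of `evLK p` on the symbols of level `3 p^n` has dimension at least `D + ∑_{3 ≤ m ≤ n} dd m` (`n ≥ 2`). -/
def LBK (p D : ℕ) (dd : ℕ → ℕ) : Prop := ∀ n : ℕ, 2 ≤ n →
  ∃ G : Fin (Pool.Agent.Helper93.TLE.DDE D dd n) → (ℤ → ℤ → ℂ), (∀ k, SymK p 0 n (G k)) ∧
  LinearIndependent ℂ (fun k => evLK p (G k))

/-- Core: a new symbol of level `3 p^n`, `n ≥ 3`, with `W = -1`, `* = +1` which is killed by all words is constant. -/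
def CoreK (p : ℕ) : Prop := ∀ (n : ℕ) (G : ℤ → ℤ → ℂ), 3 ≤ n → NewSymK p n G →
  (∀ ls : List ℕ, OkK p ls → evw 1 ls G = 0) → EqC G 0

/-- Core for symbols of any type: killed by all words, `W = -1`, `* = +1` implies constant, at level `3 p^n`. -/
def CoreVK (p n : ℕ) : Prop := ∀ G : ℤ → ℤ → ℂ, SymK p 0 n G →
  EqC (act 0 (-1) (3 * (p : ℤ) ^ n) 0 G) (-G) → EqC (act (-1) 0 0 1 G) G →
  (∀ ls : List ℕ, OkK p ls → evw 1 ls G = 0) → EqC G 0

end Pool.Agent.Helper4.TK
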