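import Pool.Agent.Helper4.TK.Edge
import Pool.Agent.Helper14.W5.StE

/-!
# Project TK (levels `3·5^n`, `W_3 = +1`): lower bound

Models: `Helper4/TH/StD.lean` (project TH, levels `2·5^n`, proved; modules `Pool/Agent/*/TH/M_*.lean`; the same names) and `Helper14/W5/StD.lean`. The operator calculus on plane functions (`tr5`, `op5`, `opL`, `mulL`, `Wd5`, `Lw`, `cS`, `M7`, `nS`,
`bb5`, and the proved statements `S5Trm, S5Low0, S5Nfa, S5Nf, S5Exp, S5Lw1, S5Bb, S5PlA`) is the one of W5, unchanged. The group: determinant one with `3 ∣ c`, or determinant three with `a`, `c`, `d` divisible by three (`KTy`). The THREE plane functions of a symbol are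
`F_i(g) = G(g e_i) - G(g 0)`, `e_0 = ∞`, `e_1 = 1/3`, `e_2 = 1/2`. `T = (1 1; 0 1)`; `β = (9 -2; 15 -3)` (determinant three) maps `0 → 2/3`, `1/3 → 1/2`; `α = (12 -5; 15 -6)` (determinant three) maps `1/3 → 1`, `1/2 → 2/3`; up to scalars `β² = (17 -4; 30 -7)`, `α β = (11 -3; 15 -4)`.
There is ONE relation (the hexagon `0, ∞, 1, 2/3, 1/2, 1/3`). The Hecke operator of level `(r, s)` is `Tl l (5^r)`, `l ≠ 3, 5` (`l = 2` is allowed).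
-/

set_option autoImplicit false

namespace Pool.Agent.Helper4.TK

open Pool.Agent.Helper14.CV (Homog EqC act Tl StFar StFex)
open Pool.Agent.Helper28.WK (Tw evw)
open Pool.Agent.Helper14.W5 (tr5 Fn5 Tm opL op5 mulL sclL Gd Wd5 dX dY Lw cS M7 nS bb5 S5PlA S5Trm S5Low0 S5Nfa S5Nf S5Exp S5Lw1 S5Bb)
open Pool.Agent.Helper93.TLE (DDE)

/-- HK for `q = 3` (chain statement, the same as `SHHk` of `Helper93/TLH/StB.lean`). Hecke sum over any system of representatives. -/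
def SKHk : Prop := ∀ (p : ℕ), p.Prime → p ≠ 3 → ∀ (R : Type) (_ : AddCommGroup R) (n l : ℕ)
  (G : ℤ → ℤ → R), l.Prime → l ≠ p → l ≠ 3 → SymK p 0 n G →
  ∀ δ : Fin (l + 1) → Matrix (Fin 2) (Fin 2) ℤ,
  (∀ P, (δ P).det = l) → (∀ P, 3 * (p : ℤ) ^ n ∣ δ P 1 0) →
  (∀ P P', P ≠ P' → ¬ ∀ i j, (l : ℤ) ∣ (δ P * (δ P').adjugate) i j) →
  EqC (fun x y => ∑ P, G (δ P 0 0 * x + δ P 0 1 * y) (δ P 1 0 * x + δ P 1 1 * y)) (Tl l 1 G)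

/-- HKS for `q = 3` (chain statement, the same as `SHHkS`). `T_l` preserves symbols. For `γ = (3a β; 3p^n c 3d)` of determinant three: `γ' = adj γ`, `δ_P = (γ' std_P γ)/3` is integral, of determinant `l`, pairwise inequivalent as `l ≠ 3`. -/
def SKHkS : Prop := ∀ (p : ℕ), p.Prime → p ≠ 3 → ∀ (R : Type) (_ : AddCommGroup R) (n : ℕ)
  (G : ℤ → ℤ → R), SymK p 0 n G → ∀ l : ℕ, l.Prime → l ≠ p → l ≠ 3 → SymK p 0 n (Tl l 1 G)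

/-- TRE (from EDG, PLK). Values on translated paths: for `γ = (a b; 5c d)` of type `KTy` the path from `γ v` to `γ u` at the point `p` is the path from `v` to `u` at `p γ`: the standard matrix `g0` has determinant one and lower left entry divisible by three, so `g0 γ` has the type of
`γ` and the coordinates `p γ` (EDG). Model: `Pool/Agent/Helper36/TH/M_Tre.lean`. -/
def TTre : Prop := ∀ (R : Type) (_ : AddCommGroup R) (r s : ℕ) (G : ℤ → ℤ → R), SymK 5 r (s + 1) G →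
  ∀ (a b c d u1 u2 v1 v2 : ℤ), KTy a b (5 * c) d → (u1 ≠ 0 ∨ u2 ≠ 0) → (v1 ≠ 0 ∨ v2 ≠ 0) →
  ∀ (x : ZMod (5 ^ r)) (y : ZMod (5 ^ s)),
  edgeK (a * u1 + b * u2) (5 * c * u1 + d * u2) (a * v1 + b * v2) (5 * c * v1 + d * v2) G x y =
    tr5 a b c d (edgeK u1 u2 v1 v2 G) x y

/-- The denominators of the end points. -/
def eK : Fin 3 → ℤ := ![0, 3, 2]

/-- The three plane functions of a symbol: `F0(g) = G(g∞) - G(g0)`, `F1(g) = G(g⅓) - G(g0)`, `F2(g) = G(g½) - G(g0)`. -/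
noncomputable def pfK {R : Type} [AddCommGroup R] {q q' : ℕ} (G : ℤ → ℤ → R) (i : Fin 3) :
    ZMod q → ZMod q' → R := fun x y => edgeK 1 (eK i) 0 1 G x y

/-- The function of the path from `1/3` to `1/2`. -/
def hK {R : Type} [AddCommGroup R] {q q' : ℕ} (F : Fin 3 → ZMod q → ZMod q' → R) : ZMod q → ZMod q' → R :=
  fun x y => F 2 x y - F 1 x y

/-- The relation between the three functions: `F0 - F0∘T - (F1 - F1∘β) - (h - h∘α) = 0`, `h = F2 - F1` (path from `1/3` to `1/2`). -/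
def RelK {R : Type} [AddCommGroup R] {q q' : ℕ} (F : Fin 3 → ZMod q → ZMod q' → R) : Prop :=
  ∀ x y, F 0 x y - tr5 1 1 0 1 (F 0) x y - (F 1 x y - tr5 9 (-2) 3 (-3) (F 1) x y) -
    (hK F x y - tr5 12 (-5) 3 (-6) (hK F) x y) = 0

/-- REL (from TRE). The plane functions of a symbol satisfy the relation: `F0(p) - F0(pT) = G(g1) - G(g0)`; `F1(pβ) = G(g½) - G(g⅔)` (`β0 = 2/3`, `β⅓ = 1/2`), `h(pα) = G(g⅔) - G(g1)` (`α⅓ = 1`, `α½ = 2/3`): the sum is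
`(G1 - G0) - (G⅓ - G0) + (G½ - G⅔) - (G½ - G⅓) + (G⅔ - G1) = 0`. Model: `Pool/Agent/Helper36/TH/M_Rel.lean`. -/
def TRel : Prop := ∀ (R : Type) (_ : AddCommGroup R) (r s : ℕ) (G : ℤ → ℤ → R),
  SymK 5 r (s + 1) G → RelK (fun i => (pfK G i : ZMod (5 ^ r) → ZMod (5 ^ s) → R))

/-- EXA (from TRM). For a solution `F` of the relation a function `V` on the matrices `g = (a b; c d)` of determinant one with `3 ∣ c` (the future value `G(g∞) - G(g0)`). Definition, for `g` of type `KTy` (both types, or for all matrices with determinant prime to `5`): let `p(γ) = (b/a, c'/d)` for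
`γ = (a b; 5c' d)`, `S' = (0 -1; 3 0)` (`g S' = (3b -a; 3d -c)`); by the class of `(c : d)` modulo `5`: `5 ∣ c`: `V g = F0(p(g))`; `c ≡ 3d`: `V g = F1(p(g (1 0; -3 1)))` (path `γ{0,⅓}`); `c ≡ d`: `V g = (F1 - F2)(p(g (-2 1; -3 1)))` (path `γ{½,⅓}`); `5 ∣ d`, `c ≡ 4d`, `c ≡ 2d`: `V g = -V(g S')`
(`S'` maps these classes to the first three, in this order; `p` does not change under scalars). Then `V (g S') = -V g` for all `g` (`S'² = -3`). HEXAGON RELATION `∑_{i<6} V(g R^i) = 0`, `R = (3 -1; 3 0)` (`R` maps `0 → ∞ → 1 → 2/3 → 1/2 → 1/3 → 0`): on the classes `c/d` it acts by the 6-cycle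
`0 → ∞ → 2 → 3 → 1 → 4 → 0`, so it is enough to check it for `5 ∣ c` (the relations for `g` and `gR` are the same). There, up to scalars, `R S' = (1 1; 0 1)`, `R² = (2 -1; 3 -1)`, `R² S' = (3 2; 3 3)`, `R² S' (-2 1; -3 1) = (12 -5; 15 -6) = α`, `R³ = (3 -2; 6 -3)`, `R³ (1 0; -3 1) = (9 -2; 15 -3) = β`,
`R⁴ = (1 -1; 3 -2)`, `R⁴ (-2 1; -3 1) = 1`, `R⁵ = (0 -1; 3 -3)`, `R⁵ S' = (1 0; 3 1)`, `R⁵ S' (1 0; -3 1) = 1`: the six values are `F0`, `-F0∘T`, `-(F1 - F2)∘α`, `F1∘β`, `F1 - F2`, `-F1` at `p(g)`: the sum is `RelK`. With `V(gR) = -V(gRS')`, `V(gR³) = -V(gR³S')` (`R³S' = (2 1; 3 2)`),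
`V(gR⁵) = -V(gR⁵S')` this is the second statement below. The third
and the fourth: left multiplication by the group does not change the class and the coordinates (`γ' g`, also for `γ' = (3α β; 3γ 3δ)` of determinant three; in the fourth statement the matrix on the left is `γ' g S'/3`, `g = (a b; 3c d)`). Last: definition (class `0`; class `3`; class `1`). Model: `Pool/Agent/Helper70/TH/M_ExA.lean`. -/
def TExA : Prop := ∀ (R : Type) (_ : AddCommGroup R) (r s : ℕ)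
  (F : Fin 3 → ZMod (5 ^ r) → ZMod (5 ^ s) → R), RelK F →
  ∃ V : ℤ → ℤ → ℤ → ℤ → R,
    (∀ a b c d : ℤ, a * d - b * c = 1 → (3 : ℤ) ∣ c → V (-a) (-b) (-c) (-d) = V a b c d) ∧
    (∀ a b c d : ℤ, a * d - b * c = 1 → (3 : ℤ) ∣ c → V a b c d - V a (a + b) c (c + d) +
      V (2 * a + 3 * b) (-(a + b)) (2 * c + 3 * d) (-(c + d)) - V (2 * a + 3 * b) (a + 2 * b) (2 * c + 3 * d) (c + 2 * d) +
      V (a + 3 * b) (-(a + 2 * b)) (c + 3 * d) (-(c + 2 * d)) - V (a + 3 * b) b (c + 3 * d) d = 0) ∧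
    (∀ α β γ δ a b c d : ℤ, α * δ - β * γ = 1 → (3 : ℤ) ∣ γ → (5 : ℤ) ^ r ∣ β → (5 : ℤ) ^ (s + 1) ∣ γ →
      a * d - b * c = 1 → (3 : ℤ) ∣ c → V (α * a + β * c) (α * b + β * d) (γ * a + δ * c) (γ * b + δ * d) = V a b c d) ∧
    (∀ α β γ δ a b c d : ℤ, 3 * α * δ - β * γ = 1 → (5 : ℤ) ^ r ∣ β → (5 : ℤ) ^ (s + 1) ∣ γ →
      a * d - 3 * b * c = 1 → V (3 * α * b + β * d) (-(α * a + β * c)) (3 * (γ * b + δ * d)) (-(γ * a + 3 * δ * c)) =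
        -V a b (3 * c) d) ∧
    (∀ (x : ZMod (5 ^ r)) (y : ZMod (5 ^ s)) (a b c d : ℤ), a * d - b * (5 * c) = 1 → (3 : ℤ) ∣ c →
      (b : ZMod (5 ^ r)) = x * a → (c : ZMod (5 ^ s)) = y * d →
      V a b (5 * c) d = F 0 x y ∧ V (a + 3 * b) b (5 * c + 3 * d) d = F 1 x y ∧
      V (a + 3 * b) b (5 * c + 3 * d) d - V (a + 3 * b) (-(a + 2 * b)) (5 * c + 3 * d) (-(5 * c + 2 * d)) = F 2 x y)

/-- EXB (from PLK, FEX, FAR; the function `V` is given by its properties). Every solution of the relation comes from a symbol. Proof. Given `F`, `RelK F` and `V` of EXA define for `(a b; c d)` of determinant one `E a b c d` (the value of the path from `b/d` to `a/c`): `3 ∣ c`: `V a b c d`; `3 ∣ d`: `-V b (-a) d (-c)`; otherwise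
`3 ∣ c + d` (mediant): `E a b c d = -V(a+b, -a; c+d, -c) + V(a+b, b; c+d, d)`, or `3 ∣ c - d`: `E a b c d = V(a-b, b; c-d, d) - V(a-b, a; c-d, c)`. Sign invariance clear. Orientation `E b (-a) d (-c) = -E a b c d`: clear in all four cases (the last two are exchanged). Triangle relation of FEX `E a b c d = E a (a+b) c (c+d) + E (a+b) b (c+d) d`:
`3 ∣ c + d`: definition; `3 ∣ c`: the second term on the right is `V(a, b; c, d) - V(a, a+b; c, c+d)`: clear; `3 ∣ d`: the first term is `V(-b, a+b; -d, c+d) - V(-b, a; -d, c)`, the second `-V(b, -(a+b); d, -(c+d))`: clear; `3 ∣ c - d`: with `h = (a-b, b; c-d, d)` this is the second property of `V` at `h`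
(`(a-b, a; c-d, c) = hT`, `(2a+b, -a; ..) = h (2 -1; 3 -1)`, `(2a+b, a+b; ..) = h (2 1; 3 2)`, `(a+2b, -(a+b); ..) = h (1 -1; 3 -2)`, `(a+2b, b; ..) = h (1 0; 3 1)`).
FEX gives `G`. For `γ` of type one in the group of the symbol `G∘γ - G` has equal values at both ends of the edges with `3 ∣ c` or `3 ∣ d` (third property), so of all edges (through the mediant `(a±b)/(c±d)`): constant by FAR. For `γ = (3α β; 3γ' 3δ)` of type two and `g = (a b; 3c d)`: `γ g ∞ = (αa + βc : γ'a + 3δc)`, `γ g 0 = (3αb + βd : 3(γ'b + δd))`, and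
`G(γ g 0) - G(γ g ∞) = V(3αb + βd, -(αa + βc); 3(γ'b + δd), -(γ'a + 3δc))`: fourth property. (A matrix of type two is `(3α β; 3γ' 3δ)` with `3αδ - βγ' = 1`.) `pfK G i = F i`: last property at the standard matrix (PLK); for `i = 2` the path `0 → 1/3 → 1/2`. Model: `Pool/Agent/Helper85/TH/M_ExB.lean`. -/
def TExB : Prop := ∀ (R : Type) (_ : AddCommGroup R) (r s : ℕ)
  (F : Fin 3 → ZMod (5 ^ r) → ZMod (5 ^ s) → R) (V : ℤ → ℤ → ℤ → ℤ → R),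
    (∀ a b c d : ℤ, a * d - b * c = 1 → (3 : ℤ) ∣ c → V (-a) (-b) (-c) (-d) = V a b c d) →
    (∀ a b c d : ℤ, a * d - b * c = 1 → (3 : ℤ) ∣ c → V a b c d - V a (a + b) c (c + d) +
      V (2 * a + 3 * b) (-(a + b)) (2 * c + 3 * d) (-(c + d)) - V (2 * a + 3 * b) (a + 2 * b) (2 * c + 3 * d) (c + 2 * d) +
      V (a + 3 * b) (-(a + 2 * b)) (c + 3 * d) (-(c + 2 * d)) - V (a + 3 * b) b (c + 3 * d) d = 0) →
    (∀ α β γ δ a b c d : ℤ, α * δ - β * γ = 1 → (3 : ℤ) ∣ γ → (5 : ℤ) ^ r ∣ β → (5 : ℤ) ^ (s + 1) ∣ γ →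
      a * d - b * c = 1 → (3 : ℤ) ∣ c → V (α * a + β * c) (α * b + β * d) (γ * a + δ * c) (γ * b + δ * d) = V a b c d) →
    (∀ α β γ δ a b c d : ℤ, 3 * α * δ - β * γ = 1 → (5 : ℤ) ^ r ∣ β → (5 : ℤ) ^ (s + 1) ∣ γ →
      a * d - 3 * b * c = 1 → V (3 * α * b + β * d) (-(α * a + β * c)) (3 * (γ * b + δ * d)) (-(γ * a + 3 * δ * c)) =
        -V a b (3 * c) d) →
    (∀ (x : ZMod (5 ^ r)) (y : ZMod (5 ^ s)) (a b c d : ℤ), a * d - b * (5 * c) = 1 → (3 : ℤ) ∣ c →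
      (b : ZMod (5 ^ r)) = x * a → (c : ZMod (5 ^ s)) = y * d →
      V a b (5 * c) d = F 0 x y ∧ V (a + 3 * b) b (5 * c + 3 * d) d = F 1 x y ∧
      V (a + 3 * b) b (5 * c + 3 * d) d - V (a + 3 * b) (-(a + 2 * b)) (5 * c + 3 * d) (-(5 * c + 2 * d)) = F 2 x y) →
  ∃ G : ℤ → ℤ → R, SymK 5 r (s + 1) G ∧ ∀ i, pfK G i = F i

/-- EX (from EXA, EXB; proved below). -/
def TEx : Prop := ∀ (R : Type) (_ : AddCommGroup R) (r s : ℕ)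
  (F : Fin 3 → ZMod (5 ^ r) → ZMod (5 ^ s) → R), RelK F →
  ∃ G : ℤ → ℤ → R, SymK 5 r (s + 1) G ∧ ∀ i, pfK G i = F i

theorem hEx (ha : TExA) (hb : TExB) : TEx := by
  intro R _ r s F hF
  obtain ⟨V, h1, h2, h3, h4, h5⟩ := ha R _ r s F hF
  exact hb R _ r s F V h1 h2 h3 h4 h5

/-- UNI (from EDG, PLK, FAR). A symbol with `F0 = F1 = F2 = 0` is constant. For `γ = (a b; 5c d)` of type `KTy` (any plane point) `G` has the same value at `γ∞, γ0, γ⅓, γ½` (EDG). For `g` of type `KTy` this gives `G(g∞) = G(g0)` by the classes of `(c : d)` modulo `5` as in EXA: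
`5 ∣ c`: `γ = g`; `c ≡ 3d`: `γ = g (1 0; -3 1)`, `γ⅓ = g∞`, `γ0 = g0`; `c ≡ d`: `γ = g (-2 1; -3 1)`, `γ⅓ = g∞`, `γ½ = g0`; the other classes: replace `g` by `g S'`, `S' = (0 -1; 3 0)` (divided by `3` if `g` has type two), which exchanges the two ends. For an edge `(a b; c d)` of determinant one:
`3 ∣ c`: type one; `3 ∣ d`: turn it; otherwise through the mediant `(a±b)/(c±d)`. FAR. Model: `Pool/Agent/Helper39/TH/M_Uni.lean`. -/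
def TUni : Prop := ∀ (R : Type) (_ : AddCommGroup R) (r s : ℕ) (G : ℤ → ℤ → R),
  SymK 5 r (s + 1) G → (∀ i, (pfK G i : ZMod (5 ^ r) → ZMod (5 ^ s) → R) = 0) → EqC G 0

/-- HKB. Hecke sums for balanced levels `(r, s)` (from SKHk by `G0(p,q) = G(5^r p, q)`, a symbol
of level `(0, r+s)`, `G(p,q) = G0(p, 5^r q)`, `(Tl l 1 G0)(p,q) = (Tl l (5^r) G)(5^r p, q)`; `δ` becomes `(a, b/5^r; 5^r c, d)`), and `T_l` preserves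
symbols (SKHkS). Model: `Pool/Agent/Helper8/TH/M_HkB.lean`. -/
def THkB : Prop := ∀ (R : Type) (_ : AddCommGroup R) (r s l : ℕ) (G : ℤ → ℤ → R), l.Prime →
  l ≠ 5 → l ≠ 3 → SymK 5 r s G → SymK 5 r s (Tl l (5 ^ r) G) ∧
  ∀ δ : Fin (l + 1) → Matrix (Fin 2) (Fin 2) ℤ,
  (∀ P, (δ P).det = l) → (∀ P, (5 : ℤ) ^ r ∣ δ P 0 1) → (∀ P, 3 * (5 : ℤ) ^ s ∣ δ P 1 0) →
  (∀ P P', P ≠ P' → ¬ ∀ i j, (l : ℤ) ∣ (δ P * (δ P').adjugate) i j) →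
  EqC (fun p q => ∑ P, G (δ P 0 0 * p + δ P 0 1 * q) (δ P 1 0 * p + δ P 1 1 * q)) (Tl l (5 ^ r) G)

/-- HKF (from HKB, EDG, PLK). Hecke formula on the plane for the path from `v` to `u`. `J` is a complete system of residues modulo `l`. Proof as in TH: all standard matrices have determinant one and lower left entry divisible by three, so `3 ∣ δ 1 0`. Model: `Pool/Agent/Helper48/TH/M_HkF.lean`. -/
def THkF : Prop := ∀ (R : Type) (_ : AddCommGroup R) (r s l : ℕ) (G : ℤ → ℤ → R) (J : Finset ℤ),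
  l.Prime → l ≠ 5 → l ≠ 3 → SymK 5 r (s + 1) G → J.card = l →
  (∀ j ∈ J, ∀ j' ∈ J, (l : ℤ) ∣ j - j' → j = j') →
  ∀ (u1 u2 v1 v2 : ℤ), (u1 ≠ 0 ∨ u2 ≠ 0) → (v1 ≠ 0 ∨ v2 ≠ 0) → ∀ (x : ZMod (5 ^ r)) (y : ZMod (5 ^ s)),
  edgeK u1 u2 v1 v2 (Tl l (5 ^ r) G) x y =
    tr5 1 0 0 l (edgeK (l * u1) u2 (l * v1) v2 G) x y +
    ∑ j ∈ J, tr5 l (-j) 0 1 (edgeK (u1 + j * u2) (l * u2) (v1 + j * v2) (l * v2) G) x y

/-- The relation as a row of three lists. -/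
def relK : Fin 3 → List Tm
  | 0 => [(1, 1, 0, 0, 1), (-1, 1, 1, 0, 1)]
  | 1 => [(1, 9, -2, 3, -3), (-1, 12, -5, 3, -6)]
  | 2 => [(-1, 1, 0, 0, 1), (1, 12, -5, 3, -6)]

/-- RLL. The relation as operators (definitions only). -/
def TRll : Prop := ∀ (r s : ℕ) (F : Fin 3 → Fn5 (5 ^ r) (5 ^ s)), RelK F →
  ∑ f : Fin 3, opL (relK f) (F f) = 0

/-- The rows of `T_2`. -/
def T2K : Fin 3 → Fin 3 → List Tm
  | 0, 0 => [(1, 1, 0, 0, 2), (1, 2, -1, 0, 1), (1, 2, 0, 0, 1)]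
  | 0, 1 => []
  | 0, 2 => [(-1, 2, -1, 0, 1)]
  | 1, 0 => [(1, 1, 0, 0, 2), (-1, 1, 1, 0, 2), (1, 2, -1, 0, 1), (-1, 2, 1, 0, 1)]
  | 1, 1 => [(1, 4, -2, 3, -7), (-1, 9, -4, 3, -6), (-1, 12, -5, 6, -12)]
  | 1, 2 => [(-1, 2, -1, 0, 1), (-1, 4, -2, 3, -7), (1, 9, -4, 3, -6), (1, 12, -5, 6, -12)]
  | 2, 0 => [(1, 1, 0, 0, 2), (-1, 1, 1, 0, 2), (1, 2, -1, 0, 1), (-1, 2, 1, 0, 1)]
  | 2, 1 => [(1, 2, 0, 0, 1), (1, 6, -4, 3, -9), (-1, 7, -2, 3, -4), (-1, 9, -4, 3, -6)]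
  | 2, 2 => [(-1, 2, -1, 0, 1), (-1, 6, -4, 3, -9), (1, 9, -4, 3, -6)]

/-- The rows of `T_7`. -/
def T7K : Fin 3 → Fin 3 → List Tm
  | 0, 0 => [(1, 1, 0, 0, 7), (1, 7, -3, 0, 1), (1, 7, -2, 0, 1), (1, 7, -1, 0, 1), (1, 7, 0, 0, 1), (1, 7, 1, 0, 1), (1, 7, 2, 0, 1), (1, 7, 3, 0, 1)]
  | 0, 1 => [(1, 1, 0, -6, 7), (1, 2, -1, 3, -4), (-1, 3, -1, -12, 27), (-1, 3, -1, -3, 12), (-1, 3, -1, 6, -3), (-1, 4, -1, 3, -2), (1, 6, -1, -3, 6), (-1, 7, -2, 0, 1), (1, 9, -5, 3, -6), (1, 24, -11, 3, -6)]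
  | 0, 2 => [(1, 1, 0, -3, 7), (-1, 2, -1, 3, -4), (-1, 3, -2, 3, -3), (1, 3, -1, -12, 27), (1, 3, -1, -3, 12), (-1, 7, -3, 0, 1), (-1, 9, -5, 3, -6), (-1, 24, -11, 3, -6)]
  | 1, 0 => [(1, 1, 0, 0, 7), (-1, 1, 2, 0, 7), (1, 6, 1, 3, 6), (-1, 6, 7, 3, 21), (-1, 9, -7, 6, -21), (1, 9, 2, 6, 9)]
  | 1, 1 => [(1, 1, -1, 3, -8), (1, 1, 0, -6, 7), (1, 1, 0, -3, 7), (1, 1, 2, 0, 7), (-1, 3, -1, -12, 27), (-1, 3, -1, -3, 12), (-1, 3, -1, 6, -3), (-1, 4, -1, 3, -2), (1, 6, -1, -3, 6), (-1, 13, -5, 6, -11), (1, 14, -7, 9, -22), (1, 16, -3, 9, -8), (-1, 24, -7, 15, -21), (-1, 27, -10, 15, -27)]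
  | 1, 2 => [(-1, 1, -1, 3, -8), (-1, 2, -1, 3, -4), (-1, 3, -2, 3, -3), (1, 3, -1, -12, 27), (1, 3, -1, -3, 12), (1, 13, -5, 6, -11), (-1, 14, -7, 9, -22), (1, 27, -10, 15, -27)]
  | 2, 0 => [(1, 1, 0, 0, 7), (-1, 1, 3, 0, 7), (-1, 7, -7, 3, -14), (1, 7, 0, 3, 1), (1, 8, -1, 3, -1), (-1, 8, 7, 3, 14)]
  | 2, 1 => [(1, 1, 0, -6, 7), (-1, 3, -1, -12, 27), (-1, 3, -1, -3, 12), (-1, 3, -1, 6, -3), (-1, 4, -1, 3, -2), (1, 6, -1, -3, 6), (1, 7, -1, 0, 1), (1, 9, 4, 3, 9), (1, 11, -5, 6, -13), (-1, 22, -7, 9, -14), (-1, 31, -12, 12, -23), (1, 36, -19, 15, -39)]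
  | 2, 2 => [(1, 1, 0, -3, 7), (1, 1, 3, 0, 7), (-1, 2, -1, 3, -4), (-1, 3, -2, 3, -3), (1, 3, -1, -12, 27), (1, 3, -1, -3, 12), (-1, 6, -5, 3, -9), (-1, 11, -5, 6, -13), (1, 31, -12, 12, -23), (-1, 36, -19, 15, -39)]

/-- The rows of `T_11`. -/
def T11K : Fin 3 → Fin 3 → List Tm
  | 0, 0 => [(-1, 1, -1, 3, -4), (1, 1, 0, -3, 11), (1, 1, 0, 0, 11), (1, 1, 0, 3, 11), (-1, 1, 1, -3, -4), (1, 11, -5, 0, 1), (1, 11, -4, 0, 1), (1, 11, -3, 0, 1), (1, 11, -2, 0, 1), (1, 11, -1, 0, 1), (1, 11, 0, 0, 1), (1, 11, 1, 0, 1), (1, 11, 2, 0, 1), (1, 11, 3, 0, 1), (1, 11, 4, 0, 1), (1, 11, 5, 0, 1)]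
  | 0, 1 => [(1, 1, -1, 3, -4), (1, 1, 0, -9, 11), (1, 1, 0, -6, 11), (1, 2, -1, 9, -17), (1, 3, -2, 6, -9), (-1, 3, -1, -15, 36), (-1, 3, -1, -6, 21), (-1, 3, -1, 3, 6), (-1, 3, -1, 12, -9), (1, 3, 1, -3, 6), (-1, 4, -1, 3, -1), (-1, 8, -3, -3, 7), (-1, 11, -4, 0, 1), (-1, 11, -3, 0, 1), (1, 12, -7, 3, -6), (-1, 12, -5, -3, 9), (1, 27, -13, 3, -6), (1, 42, -19, 3, -6)]
  | 0, 2 => [(-1, 2, -1, 3, -2), (-1, 2, -1, 9, -17), (-1, 3, -2, 6, -9), (1, 3, -1, -15, 36), (1, 3, -1, -6, 21), (1, 8, -3, -3, 7), (-1, 9, -4, 3, -3), (-1, 11, -5, 0, 1), (-1, 12, -7, 3, -6), (1, 12, -5, -3, 9), (-1, 27, -13, 3, -6), (-1, 42, -19, 3, -6)]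
  | 1, 0 => [(-1, 1, -1, 3, -4), (1, 1, 0, -3, 11), (1, 1, 0, 0, 11), (1, 1, 0, 3, 11), (-1, 1, 1, -3, -4), (-1, 1, 4, 0, 11), (-1, 4, -5, 3, -16), (1, 4, -1, 3, -1), (1, 6, -1, 3, 3), (-1, 6, 11, 3, 33), (-1, 9, -11, 6, -33), (1, 9, -4, 3, -3), (1, 9, -2, 6, -3), (-1, 9, 5, 3, 12)]
  | 1, 1 => [(1, 1, 0, -9, 11), (1, 1, 0, -6, 11), (1, 2, -1, 9, -17), (-1, 3, -1, -15, 36), (-1, 3, -1, -6, 21), (-1, 3, -1, 3, 6), (-1, 3, -1, 12, -9), (1, 4, -5, 3, -16), (-1, 4, -1, 3, -1), (-1, 8, -3, -3, 7), (1, 11, -2, 0, 1), (1, 11, 0, 6, 1), (-1, 12, -5, -3, 9), (-1, 13, -4, 9, -13), (-1, 16, -7, 9, -19), (1, 19, -10, 12, -31), (-1, 23, -9, 12, -23), (1, 26, -5, 15, -14), (-1, 27, -8, 15, -21), (1, 34, -15, 21, -46), (-1, 39, -11, 24, -33), (-1, 57, -23, 33, -66)]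
  | 1, 2 => [(-1, 2, -1, 3, -2), (-1, 2, -1, 9, -17), (-1, 3, -4, 3, -9), (-1, 3, -2, 6, -9), (1, 3, -1, -15, 36), (1, 3, -1, -6, 21), (1, 8, -3, -3, 7), (-1, 9, -4, 3, -3), (1, 12, -5, -3, 9), (1, 16, -7, 9, -19), (-1, 19, -10, 12, -31), (1, 23, -9, 12, -23), (-1, 24, -11, 15, -33), (1, 27, -8, 15, -21), (-1, 34, -15, 21, -46), (1, 57, -23, 33, -66)]
  | 2, 0 => [(-1, 1, -1, 3, -4), (1, 1, 0, -3, 11), (1, 1, 0, 0, 11), (1, 1, 0, 3, 11), (-1, 1, 1, -3, -4), (-1, 1, 5, 0, 11), (-1, 6, -13, 3, -27), (1, 6, -1, 3, 3), (-1, 7, -11, 3, -22), (1, 7, -4, 3, -7), (1, 8, 3, 3, 7), (-1, 8, 11, 3, 22), (1, 9, -4, 3, -3), (-1, 9, 14, 3, 27)]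
  | 2, 1 => [(1, 1, 0, -9, 11), (1, 1, 0, -6, 11), (1, 2, -1, 9, -17), (1, 3, -2, 6, -9), (-1, 3, -1, -15, 36), (-1, 3, -1, -6, 21), (-1, 3, -1, 3, 6), (-1, 3, -1, 12, -9), (-1, 4, -1, 3, -1), (1, 6, -13, 3, -27), (-1, 8, -3, -3, 7), (1, 11, -2, 0, 1), (-1, 12, -5, -3, 9), (1, 13, -6, 6, -13), (1, 21, -10, 12, -27), (-1, 27, -10, 12, -21), (-1, 31, -10, 12, -19), (-1, 37, -11, 15, -22), (1, 39, -2, 15, -3), (1, 51, -28, 21, -57), (-1, 61, -25, 24, -49), (1, 96, -43, 39, -87)]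
  | 2, 2 => [(1, 1, 5, 0, 11), (-1, 2, -1, 3, -2), (-1, 2, -1, 9, -17), (-1, 3, -4, 3, -9), (-1, 3, -2, 6, -9), (1, 3, -1, -15, 36), (1, 3, -1, -6, 21), (-1, 7, -4, 3, -7), (1, 8, -3, -3, 7), (-1, 9, -4, 3, -3), (1, 12, -5, -3, 9), (-1, 13, -6, 6, -13), (-1, 21, -10, 12, -27), (-1, 22, -11, 9, -22), (1, 31, -10, 12, -19), (-1, 51, -28, 21, -57), (1, 61, -25, 24, -49), (-1, 96, -43, 39, -87)]

/-- The rows of `T_13`. -/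
def T13K : Fin 3 → Fin 3 → List Tm
  | 0, 0 => [(-1, 1, -1, 3, -2), (1, 1, 0, -3, 13), (1, 1, 0, 0, 13), (1, 1, 0, 3, 13), (-1, 1, 1, -3, -2), (-1, 3, -2, 3, 3), (1, 3, -1, -3, 18), (1, 3, 1, 3, 18), (-1, 3, 2, -3, 3), (1, 13, -6, 0, 1), (1, 13, -5, 0, 1), (1, 13, -4, 0, 1), (1, 13, -3, 0, 1), (1, 13, -2, 0, 1), (1, 13, -1, 0, 1), (1, 13, 0, 0, 1), (1, 13, 1, 0, 1), (1, 13, 2, 0, 1), (1, 13, 3, 0, 1), (1, 13, 4, 0, 1), (1, 13, 5, 0, 1), (1, 13, 6, 0, 1)]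
  | 0, 1 => [(1, 1, 0, -9, 13), (1, 2, -1, 9, -16), (1, 2, -1, 15, -31), (-1, 3, -1, -21, 48), (-1, 3, -1, -12, 33), (-1, 3, -1, -3, 18), (-1, 3, -1, 6, 3), (-1, 3, -1, 15, -12), (-1, 4, -1, -3, 7), (1, 6, -5, 3, -6), (1, 7, -1, -3, 4), (1, 9, -4, 6, -9), (1, 9, -1, -3, 6), (-1, 12, -5, 3, -3), (-1, 13, -5, 0, 1), (-1, 13, -4, 0, 1), (-1, 13, -3, 0, 1), (1, 21, -11, 3, -6), (1, 36, -17, 3, -6), (1, 51, -23, 3, -6)]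
  | 0, 2 => [(1, 1, 0, -6, 13), (-1, 2, -1, 3, -1), (-1, 2, -1, 9, -16), (-1, 2, -1, 15, -31), (1, 3, -1, -21, 48), (1, 3, -1, -12, 33), (1, 4, -1, -3, 7), (-1, 6, -5, 3, -6), (1, 6, -1, -3, 9), (-1, 9, -4, 6, -9), (-1, 13, -6, 0, 1), (-1, 21, -11, 3, -6), (-1, 36, -17, 3, -6), (-1, 51, -23, 3, -6)]
  | 1, 0 => [(-1, 1, -1, 3, -2), (1, 1, 0, -3, 13), (1, 1, 0, 0, 13), (1, 1, 0, 3, 13), (-1, 1, 1, -3, -2), (-1, 1, 4, 0, 13), (-1, 3, -5, 3, -12), (1, 3, -1, -3, 18), (1, 3, 1, 3, 18), (-1, 3, 2, -3, 3), (-1, 4, -3, 3, -8), (1, 4, 1, 3, 7), (1, 6, 1, 3, 9), (-1, 6, 13, 3, 39), (-1, 9, -13, 6, -39), (1, 9, -4, 6, -9)]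
  | 1, 1 => [(1, 1, 0, -9, 13), (1, 1, 0, -6, 13), (1, 1, 4, 0, 13), (1, 2, -1, 9, -16), (1, 2, -1, 15, -31), (1, 3, -2, 12, -27), (-1, 3, -1, -21, 48), (-1, 3, -1, -12, 33), (-1, 3, -1, -3, 18), (-1, 3, -1, 6, 3), (-1, 3, -1, 15, -12), (1, 6, -1, -3, 9), (-1, 8, -3, 3, -4), (1, 9, 1, 3, 6), (-1, 11, -3, 6, -7), (-1, 12, -5, 3, -3), (1, 14, -9, 9, -28), (1, 16, -1, 9, -2), (-1, 21, -8, 12, -21), (-1, 23, -6, 15, -19), (-1, 27, -7, 15, -18), (-1, 28, -11, 15, -29), (1, 29, -14, 18, -43), (1, 31, -6, 18, -17), (-1, 39, -13, 24, -39), (1, 44, -19, 27, -58), (-1, 54, -13, 33, -39), (-1, 57, -22, 33, -63)]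
  | 1, 2 => [(-1, 2, -1, 3, -1), (-1, 2, -1, 9, -16), (-1, 2, -1, 15, -31), (-1, 3, -2, 12, -27), (1, 3, -1, -21, 48), (1, 3, -1, -12, 33), (1, 8, -3, 3, -4), (-1, 9, -4, 6, -9), (1, 11, -3, 6, -7), (1, 12, -5, 3, -3), (-1, 14, -9, 9, -28), (1, 21, -8, 12, -21), (-1, 24, -13, 15, -39), (1, 27, -7, 15, -18), (1, 28, -11, 15, -29), (-1, 29, -14, 18, -43), (-1, 44, -19, 27, -58), (1, 57, -22, 33, -63)]
  | 2, 0 => [(-1, 1, -1, 3, -2), (1, 1, 0, -3, 13), (1, 1, 0, 0, 13), (1, 1, 0, 3, 13), (-1, 1, 1, -3, -2), (-1, 1, 6, 0, 13), (-1, 3, -5, 3, -12), (1, 3, -1, -3, 18), (1, 3, 1, 3, 18), (-1, 3, 2, -3, 3), (-1, 6, -11, 3, -21), (1, 6, -5, 3, -6), (-1, 7, -13, 3, -26), (1, 7, 1, 3, 4), (1, 8, -3, 3, -4), (-1, 8, 13, 3, 26), (1, 9, 1, 3, 6), (-1, 9, 10, 3, 21), (1, 12, -5, 3, -3), (-1, 12, 7, 3, 12)]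
  | 2, 1 => [(1, 1, 0, -9, 13), (1, 2, -1, 9, -16), (1, 2, -1, 15, -31), (1, 3, -5, 3, -12), (-1, 3, -1, -21, 48), (-1, 3, -1, -12, 33), (-1, 3, -1, -3, 18), (-1, 3, -1, 6, 3), (-1, 3, -1, 15, -12), (1, 4, -3, 3, -8), (1, 6, -1, -3, 9), (1, 7, -1, -3, 4), (-1, 8, -3, 3, -4), (1, 9, -1, -3, 6), (1, 9, 10, 3, 21), (-1, 12, -5, 3, -3), (1, 17, -1, 6, -1), (-1, 23, -10, 9, -19), (-1, 31, -9, 12, -17), (1, 36, -25, 15, -51), (-1, 37, -13, 15, -26), (-1, 39, -13, 15, -24), (-1, 52, -13, 21, -26), (1, 54, -5, 21, -9), (-1, 57, -16, 24, -33), (-1, 61, -24, 24, -47), (1, 81, -40, 33, -81), (1, 126, -55, 51, -111)]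
  | 2, 2 => [(1, 1, 0, -6, 13), (1, 1, 6, 0, 13), (-1, 2, -1, 3, -1), (-1, 2, -1, 9, -16), (-1, 2, -1, 15, -31), (1, 3, -1, -21, 48), (1, 3, -1, -12, 33), (-1, 4, -3, 3, -8), (-1, 6, -5, 3, -6), (-1, 9, -4, 6, -9), (-1, 22, -13, 9, -26), (1, 23, -10, 9, -19), (1, 31, -9, 12, -17), (-1, 36, -25, 15, -51), (1, 39, -13, 15, -24), (1, 61, -24, 24, -47), (-1, 81, -40, 33, -81), (-1, 126, -55, 51, -111)]

/-- The rows of `T_19`. -/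
def T19K : Fin 3 → Fin 3 → List Tm
  | 0, 0 => [(-1, 1, -1, 3, 4), (1, 1, 0, -3, 19), (1, 1, 0, 0, 19), (1, 1, 0, 3, 19), (-1, 1, 1, -3, 4), (-1, 3, -2, 3, 9), (1, 3, -1, -3, 24), (1, 3, 1, 3, 24), (-1, 3, 2, -3, 9), (-1, 6, -5, 3, -3), (1, 6, -1, -3, 12), (1, 6, 1, 3, 12), (-1, 6, 5, -3, -3), (1, 19, -9, 0, 1), (1, 19, -8, 0, 1), (1, 19, -7, 0, 1), (1, 19, -6, 0, 1), (1, 19, -5, 0, 1), (1, 19, -4, 0, 1), (1, 19, -3, 0, 1), (1, 19, -2, 0, 1), (1, 19, -1, 0, 1), (1, 19, 0, 0, 1), (1, 19, 1, 0, 1), (1, 19, 2, 0, 1), (1, 19, 3, 0, 1), (1, 19, 4, 0, 1), (1, 19, 5, 0, 1), (1, 19, 6, 0, 1), (1, 19, 7, 0, 1), (1, 19, 8, 0, 1), (1, 19, 9, 0, 1)]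
  | 0, 1 => [(1, 1, -1, 6, -11), (1, 1, 0, -15, 19), (1, 1, 0, -12, 19), (1, 1, 0, -9, 19), (1, 1, 1, -3, 4), (1, 2, -1, 9, -13), (1, 2, -1, 15, -28), (1, 2, -1, 21, -43), (1, 3, -5, 3, -6), (1, 3, -2, 12, -21), (-1, 3, -1, -39, 84), (-1, 3, -1, -30, 69), (-1, 3, -1, -21, 54), (-1, 3, -1, -12, 39), (-1, 3, -1, -3, 24), (-1, 3, -1, 6, 9), (-1, 3, -1, 15, -6), (-1, 3, -1, 24, -21), (1, 3, 1, -6, 9), (-1, 4, -1, 3, 1), (1, 6, -1, -21, 27), (-1, 7, -2, -3, 7), (-1, 8, -3, -3, 8), (1, 9, -4, 15, -27), (-1, 9, -2, 3, 3), (1, 12, -1, -3, 6), (-1, 13, -5, -6, 13), (1, 16, -3, -3, 4), (1, 18, -11, 3, -6), (-1, 18, -7, -3, 9), (-1, 19, -8, 0, 1), (-1, 19, -7, 0, 1), (-1, 19, -6, 0, 1), (-1, 19, -5, 0, 1), (-1, 19, -4, 0, 1), (-1, 21, -8, 3, -3), (1, 33, -17, 3, -6), (1, 48, -23, 3, -6), (1, 63, -29, 3, -6), (1, 78, -35, 3, -6)]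
  | 0, 2 => [(-1, 1, -1, 6, -11), (1, 1, 0, -6, 19), (-1, 2, -1, 3, 2), (-1, 2, -1, 9, -13), (-1, 2, -1, 15, -28), (-1, 2, -1, 21, -43), (-1, 3, -5, 3, -6), (-1, 3, -2, 12, -21), (1, 3, -1, -39, 84), (1, 3, -1, -30, 69), (1, 3, -1, -21, 54), (1, 3, -1, -12, 39), (1, 3, 2, -3, 9), (1, 7, -2, -3, 7), (1, 8, -3, -3, 8), (-1, 9, -4, 15, -27), (1, 13, -5, -6, 13), (-1, 18, -11, 3, -6), (1, 18, -7, -3, 9), (-1, 19, -9, 0, 1), (-1, 33, -17, 3, -6), (-1, 48, -23, 3, -6), (-1, 63, -29, 3, -6), (-1, 78, -35, 3, -6)]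
  | 1, 0 => [(-1, 1, -1, 3, 4), (1, 1, 0, -3, 19), (1, 1, 0, 0, 19), (1, 1, 0, 3, 19), (-1, 1, 1, -3, 4), (-1, 1, 6, 0, 19), (-1, 3, -8, 3, -21), (1, 3, -5, 3, -6), (-1, 3, -2, 3, 9), (1, 3, -1, -3, 24), (1, 3, 1, 3, 24), (-1, 3, 2, -3, 9), (-1, 4, -5, 3, -14), (1, 4, -1, 3, 1), (1, 6, -1, -3, 12), (1, 6, 1, 3, 12), (-1, 6, 5, -3, -3), (-1, 6, 19, 3, 57), (-1, 9, -19, 6, -57), (1, 9, -2, 3, 3), (1, 9, -1, 6, 3), (-1, 9, 7, 3, 18), (1, 21, -2, 12, -3), (-1, 21, 19, 12, 57), (-1, 24, -19, 15, -57), (1, 24, 5, 15, 18)]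
  | 1, 1 => [(1, 1, -2, 3, -11), (1, 1, -1, 6, -11), (1, 1, 0, -15, 19), (1, 1, 0, -12, 19), (1, 1, 0, -9, 19), (1, 1, 6, 0, 19), (1, 2, -1, 9, -13), (1, 2, -1, 15, -28), (1, 2, -1, 21, -43), (1, 3, -2, 12, -21), (-1, 3, -1, -39, 84), (-1, 3, -1, -30, 69), (-1, 3, -1, -21, 54), (-1, 3, -1, -12, 39), (-1, 3, -1, -3, 24), (-1, 3, -1, 6, 9), (-1, 3, -1, 15, -6), (-1, 3, -1, 24, -21), (-1, 4, -1, 3, 1), (1, 6, -1, -21, 27), (-1, 8, -3, -3, 8), (1, 9, -5, 12, -27), (1, 9, -4, 15, -27), (-1, 9, -2, 3, 3), (1, 11, -2, 3, -1), (-1, 13, -5, -6, 13), (1, 13, -3, 3, -2), (1, 14, -11, 9, -34), (1, 16, -3, -3, 4), (1, 16, 1, 9, 4), (-1, 18, -7, -3, 9), (-1, 19, -8, 0, 1), (1, 21, -10, 15, -33), (-1, 21, -8, 3, -3), (1, 21, -4, 6, -3), (-1, 23, -7, 15, -22), (-1, 26, -11, 15, -31), (1, 27, -5, 12, -9), (1, 29, -16, 18, -49), (1,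 31, -4, 18, -11), (1, 39, -5, 21, -12), (-1, 43, -17, 24, -47), (1, 44, -21, 27, -64), (1, 46, -9, 27, -26), (-1, 54, -19, 33, -57), (-1, 57, -19, 33, -54), (1, 59, -26, 36, -79), (-1, 69, -19, 42, -57), (-1, 84, -19, 51, -57), (-1, 87, -34, 51, -99)]
  | 1, 2 => [(-1, 1, -2, 3, -11), (-1, 1, -1, 6, -11), (1, 1, 0, -6, 19), (-1, 2, -1, 3, 2), (-1, 2, -1, 9, -13), (-1, 2, -1, 15, -28), (-1, 2, -1, 21, -43), (-1, 3, -5, 3, -6), (-1, 3, -2, 12, -21), (1, 3, -1, -39, 84), (1, 3, -1, -30, 69), (1, 3, -1, -21, 54), (1, 3, -1, -12, 39), (1, 8, -3, -3, 8), (-1, 9, -5, 12, -27), (-1, 9, -4, 15, -27), (1, 11, -1, 6, -1), (1, 13, -5, -6, 13), (-1, 14, -11, 9, -34), (1, 18, -7, -3, 9), (1, 19, -8, 0, 1), (-1, 21, -10, 15, -33), (1, 21, -8, 3, -3), (1, 26, -11, 15, -31), (1, 27, -4, 15, -9), (-1, 29, -16, 18, -49), (-1, 39, -19,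 24, -57), (1, 43, -17, 24, -47), (-1, 44, -21, 27, -64), (1, 57, -19, 33, -54), (-1, 59, -26, 36, -79), (1, 87, -34, 51, -99)]
  | 2, 0 => [(-1, 1, -1, 3, 4), (1, 1, 0, -3, 19), (1, 1, 0, 0, 19), (1, 1, 0, 3, 19), (-1, 1, 1, -3, 4), (-1, 1, 9, 0, 19), (-1, 3, -2, 3, 9), (1, 3, -1, -3, 24), (1, 3, 1, 3, 24), (-1, 3, 2, -3, 9), (-1, 6, -17, 3, -33), (1, 6, -1, -3, 12), (1, 6, 1, 3, 12), (-1, 6, 5, -3, -3), (-1, 7, -19, 3, -38), (1, 7, 2, 3, 7), (1, 8, -5, 3, -7), (-1, 8, 19, 3, 38), (1, 9, -2, 3, 3), (-1, 9, 16, 3, 33), (-1, 22, -19, 9, -38), (1, 22, 3, 9, 7), (1, 23, -4, 9, -7), (-1, 23, 19, 9, 38)]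
  | 2, 1 => [(1, 1, -1, 6, -11), (1, 1, 0, -15, 19), (1, 1, 0, -12, 19), (1, 1, 0, -9, 19), (1, 2, -1, 9, -13), (1, 2, -1, 15, -28), (1, 2, -1, 21, -43), (1, 3, -2, 12, -21), (-1, 3, -1, -39, 84), (-1, 3, -1, -30, 69), (-1, 3, -1, -21, 54), (-1, 3, -1, -12, 39), (-1, 3, -1, -3, 24), (-1, 3, -1, 6, 9), (-1, 3, -1, 15, -6), (-1, 3, -1, 24, -21), (1, 3, 1, -6, 9), (1, 3, 2, -3, 9), (-1, 4, -1, 3, 1), (1, 6, -1, -21, 27), (-1, 8, -3, -3, 8), (1, 9, -5, 12, -27), (1, 9, -4, 15, -27), (-1, 9, -2, 3, 3), (1, 9, 16, 3, 33), (1, 13, -8, 6, -17), (-1, 13, -5, -6, 13), (1, 13, -3, 3, -2), (-1, 14, -5, 3, -4), (1, 16, -3, -3, 4), (-1, 18, -7, -3, 9), (-1, 19, -8, 0, 1), (-1, 21, -8, 3, -3), (1, 21, -4, 6, -3), (-1, 27, -10, 6, -9), (-1, 28, -11, 9, -17), (-1, 33, -10, 15, -21), (1, 36, -31, 15, -63), (1, 47, -7, 18, -13), (-1,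 52, -19, 21, -38), (1, 54, 1, 21, 3), (-1, 57, -19, 24, -39), (-1, 61, -21, 24, -41), (-1, 67, -19, 27, -38), (1, 81, -46, 33, -93), (-1, 82, -19, 33, -38), (-1, 91, -36, 36, -71), (1, 99, -14, 39, -27), (1, 126, -61, 51, -123), (1, 171, -76, 69, -153)]
  | 2, 2 => [(-1, 1, -1, 6, -11), (1, 1, 0, -6, 19), (1, 1, 9, 0, 19), (-1, 2, -1, 3, 2), (-1, 2, -1, 9, -13), (-1, 2, -1, 15, -28), (-1, 2, -1, 21, -43), (-1, 3, -5, 3, -6), (-1, 3, -2, 12, -21), (1, 3, -1, -39, 84), (1, 3, -1, -30, 69), (1, 3, -1, -21, 54), (1, 3, -1, -12, 39), (-1, 8, -5, 3, -7), (1, 8, -3, -3, 8), (-1, 9, -5, 12, -27), (-1, 9, -4, 15, -27), (1, 11, -2, 3, -1), (1, 12, 1, 3, 6), (-1, 13, -8, 6, -17), (1, 13, -5, -6, 13), (1, 14, -5, 3, -4), (1, 18, -7, -3, 9), (1, 19, -8, 0, 1), (1, 21, -8, 3, -3), (1, 27, -10, 6, -9), (1, 28, -11, 9, -17), (1, 31,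 -6, 12, -11), (-1, 36, -31, 15, -63), (-1, 37, -19, 15, -38), (1, 39, -7, 15, -12), (1, 61, -21, 24, -41), (-1, 81, -46, 33, -93), (1, 91, -36, 36, -71), (-1, 126, -61, 51, -123), (-1, 171, -76, 69, -153)]

/-- The rows of `T_29`. -/
def T29K : Fin 3 → Fin 3 → List Tm
  | 0, 0 => [(-1, 1, -2, 3, -1), (-1, 1, -1, 6, -1), (1, 1, 0, -6, 29), (1, 1, 0, -3, 29), (1, 1, 0, 0, 29), (1, 1, 0, 3, 29), (1, 1, 0, 6, 29), (-1, 1, 1, -6, -1), (-1, 1, 2, -3, -1), (-1, 3, -4, 3, 9), (-1, 3, -2, 6, 9), (1, 3, -1, -6, 39), (1, 3, -1, 3, 24), (1, 3, 1, -3, 24), (1, 3, 1, 6, 39), (-1, 3, 2, -6, 9), (-1, 3, 4, -3, 9), (-1, 6, -7, 3, -3), (1, 6, -1, 3, 12), (1, 6, 1, -3, 12), (-1, 6, 7, -3, -3), (1, 29, -14, 0, 1), (1, 29, -13, 0, 1), (1, 29, -12, 0, 1), (1, 29, -11, 0, 1), (1, 29, -10, 0, 1), (1, 29, -9, 0, 1), (1, 29, -8, 0, 1), (1,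 29, -7, 0, 1), (1, 29, -6, 0, 1), (1, 29, -5, 0, 1), (1, 29, -4, 0, 1), (1, 29, -3, 0, 1), (1, 29, -2, 0, 1), (1, 29, -1, 0, 1), (1, 29, 0, 0, 1), (1, 29, 1, 0, 1), (1, 29, 2, 0, 1), (1, 29, 3, 0, 1), (1, 29, 4, 0, 1), (1, 29, 5, 0, 1), (1, 29, 6, 0, 1), (1, 29, 7, 0, 1), (1, 29, 8, 0, 1), (1, 29, 9, 0, 1), (1, 29, 10, 0, 1), (1, 29, 11, 0, 1), (1, 29, 12, 0, 1), (1, 29, 13, 0, 1), (1, 29, 14, 0, 1)]
  | 0, 1 => [(1, 1, -1, 9, -16), (1, 1, 0, -24, 29), (1, 1, 0, -21, 29), (1, 1, 0, -18, 29), (1, 1, 0, -15, 29), (1, 2, -1, 15, -23), (1, 2, -1, 21, -38), (1, 2, -1, 27, -53), (1, 2, -1, 33, -68), (1, 3, -7, 3, -6), (1, 3, -2, 15, -21), (-1, 3, -1, -60, 129), (-1, 3, -1, -51, 114), (-1, 3, -1, -42, 99), (-1, 3, -1, -33, 84), (-1, 3, -1, -24, 69), (-1, 3, -1, -15, 54), (-1, 3, -1, -6, 39), (-1, 3, -1, 3, 24), (-1, 3, -1,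 12, 9), (-1, 3, -1, 21, -6), (-1, 3, -1, 30, -21), (-1, 3, -1, 39, -36), (1, 3, 2, -6, 9), (1, 4, -3, 3, -4), (-1, 4, -1, -3, 11), (-1, 4, -1, 9, -4), (1, 6, -1, -33, 42), (1, 6, -1, -15, 27), (-1, 8, -3, 3, -2), (1, 9, -4, 30, -57), (-1, 9, -2, 6, 3), (1, 9, -1, -15, 18), (1, 11, -5, 6, -11), (1, 11, -1, -3, 4), (1, 12, 1, -3, 6), (-1, 13, -5, -3, 8), (-1, 17, -6, -3, 7), (1, 18, -13, 3, -6), (-1, 18, -5, -3, 9), (-1, 21, -8, -12, 27), (-1, 21, -5, 6, -3), (-1, 23, -9, -6, 13), (1, 26, -5, -3, 4), (1, 27, -5, -3, 6), (-1, 29, -12, 0, 1), (-1, 29, -11, 0, 1), (-1, 29, -10, 0, 1), (-1, 29, -9, 0, 1), (-1, 29, -8, 0, 1), (-1, 29, -7, 0, 1), (-1, 29, -6, 0, 1), (1, 33, -19, 3, -6), (-1, 36, -13, 3, -3), (1, 48, -25, 3, -6), (1, 63, -31, 3, -6), (1, 78, -37, 3, -6), (1, 93, -43, 3, -6), (1, 108, -49, 3, -6), (1, 123, -55,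 3, -6)]
  | 0, 2 => [(-1, 1, -1, 9, -16), (1, 1, 0, -12, 29), (1, 1, 0, -9, 29), (-1, 2, -1, 3, 7), (-1, 2, -1, 9, -8), (-1, 2, -1, 15, -23), (-1, 2, -1, 21, -38), (-1, 2, -1, 27, -53), (-1, 2, -1, 33, -68), (1, 2, 1, -3, 7), (-1, 3, -7, 3, -6), (-1, 3, -2, 15, -21), (1, 3, -1, -60, 129), (1, 3, -1, -51, 114), (1, 3, -1, -42, 99), (1, 3, -1, -33, 84), (1, 3, -1, -24, 69), (1, 3, -1, -15, 54), (1, 3, 4, -3, 9), (-1, 4, -3, 3, -4), (1, 4, -1, -3, 11), (-1, 9, -4, 3, 3), (-1, 9, -4, 30, -57), (-1, 11, -5, 6, -11), (1, 13, -5, -3, 8), (1, 17, -6, -3, 7), (-1, 18, -13, 3, -6), (1, 18, -5, -3, 9), (-1, 21, -10, 3, -3), (1, 21, -8, -12, 27), (1, 23, -9, -6, 13), (-1, 29, -14, 0, 1), (-1, 29, -13, 0, 1), (-1, 33, -19, 3, -6), (-1, 48, -25, 3, -6), (-1, 63, -31, 3, -6), (-1, 78, -37, 3, -6), (-1, 93, -43, 3, -6), (-1, 108,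 -49, 3, -6), (-1, 123, -55, 3, -6)]
  | 1, 0 => [(-1, 1, -2, 3, -1), (-1, 1, -1, 6, -1), (1, 1, 0, -6, 29), (1, 1, 0, -3, 29), (1, 1, 0, 0, 29), (1, 1, 0, 3, 29), (1, 1, 0, 6, 29), (-1, 1, 1, -6, -1), (-1, 1, 2, -3, -1), (-1, 1, 10, 0, 29), (-1, 2, -3, 3, -8), (1, 2, -1, 3, 7), (-1, 3, -13, 3, -36), (1, 3, -7, 3, -6), (-1, 3, -5, 6, -21), (-1, 3, -4, 3, 9), (1, 3, -1, -6, 39), (1, 3, -1, 3, 24), (1, 3, 1, -3, 24), (1, 3, 1, 6, 39), (-1, 3, 2, -6, 9), (-1, 3, 4, -3, 9), (-1, 4, -11, 3, -34), (1, 4, -3, 3, -4), (1, 6, -1, 3, 12), (-1, 6, 29, 3, 87), (1, 7, -1, 3, 2), (-1, 7, 6, 3, 17), (-1, 9, -29, 6, -87), (1, 9, -4, 3, 3), (1, 9, -2, 6, 3), (-1, 9, 5, 3, 18), (1, 11, -5, 6, -11), (-1, 11, 6, 6, 19), (1, 21, 8, 12, 27), (-1, 21, 29, 12, 87), (-1, 24, -29, 15, -87), (1, 24, -5, 15, -12), (1, 36, -7, 21, -18), (-1, 36,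 29, 21, 87), (-1, 39, -29, 24, -87), (1, 39, 10, 24, 33)]
  | 1, 1 => [(1, 1, -1, 9, -16), (1, 1, 0, -24, 29), (1, 1, 0, -21, 29), (1, 1, 0, -18, 29), (1, 1, 0, -15, 29), (1, 2, -1, 15, -23), (1, 2, -1, 21, -38), (1, 2, -1, 27, -53), (1, 2, -1, 33, -68), (1, 3, -5, 6, -21), (1, 3, -2, 15, -21), (-1, 3, -1, -60, 129), (-1, 3, -1, -51, 114), (-1, 3, -1, -42, 99), (-1, 3, -1, -33, 84), (-1, 3, -1, -24, 69), (-1, 3, -1, -15, 54), (-1, 3, -1, -6, 39), (-1, 3, -1, 3, 24), (-1, 3, -1, 12, 9), (-1, 3, -1, 21, -6), (-1, 3, -1, 30, -21), (-1, 3, -1, 39, -36), (1, 4, -11, 3, -34), (-1, 4, -1, -3, 11), (-1, 4, -1, 9, -4), (1, 6, -1, -33, 42), (1, 6, -1, -15, 27), (1, 6, 1, -3, 12), (-1, 8, -3, 3, -2), (1, 9, -4, 30, -57), (-1, 9, -2, 6, 3), (1, 9, -1, -15, 18), (1, 9, 5, 3, 18), (1, 11, -7, 9, -26), (1, 11, 6, 6, 19), (-1, 13,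 -4, 6, -7), (-1, 14, -5, 9, -14), (1, 19, -16, 12, -49), (1, 19, -9, 15, -34), (-1, 23, -9, -6, 13), (-1, 23, -7, 12, -17), (1, 26, -5, -3, 4), (1, 26, 1, 15, 4), (-1, 27, -11, 6, -9), (-1, 27, -7, 21, -24), (-1, 31, -11, 18, -31), (-1, 33, -13, 12, -21), (1, 34, -21, 21, -64), (1, 41, -4, 24, -11), (-1, 43, -12, 27, -37), (1, 49, -26, 30, -79), (1, 56, -9, 33, -26), (-1, 57, -14, 33, -39), (1, 64, -31, 39, -94), (-1, 68, -27, 39, -77), (-1, 69, -29, 42, -87), (1, 69, -10, 39, -27), (1, 71, -14, 42, -41), (1, 79, -36, 48, -109), (-1, 84, -29, 51, -87), (-1, 87, -29, 51, -84), (1, 94, -41, 57, -124), (-1, 99, -29, 60, -87), (-1, 114, -29, 69, -87), (-1, 117, -44, 69, -129), (-1, 129, -29, 78, -87), (-1, 147, -59, 87, -174)]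
  | 1, 2 => [(-1, 1, -1, 9, -16), (1, 1, 0, -12, 29), (1, 1, 0, -9, 29), (-1, 2, -1, 3, 7), (-1, 2, -1, 9, -8), (-1, 2, -1, 15, -23), (-1, 2, -1, 21, -38), (-1, 2, -1, 27, -53), (-1, 2, -1, 33, -68), (-1, 3, -7, 3, -6), (-1, 3, -2, 15, -21), (1, 3, -1, -60, 129), (1, 3, -1, -51, 114), (1, 3, -1, -42, 99), (1, 3, -1, -33, 84), (1, 3, -1, -24, 69), (1, 3, -1, -15, 54), (-1, 4, -3, 3, -4), (1, 4, -1, -3, 11), (-1, 7, -4, 6, -13), (1, 8, -3, 3, -2), (-1, 9, -4, 3, 3), (-1, 9, -4, 30, -57), (-1, 11, -7, 9, -26), (-1, 11, -5, 6, -11), (1, 12, -1, 3, 6), (-1, 13, -7, 9, -22), (1, 13, -4, 6, -7), (1, 16, -1, 9, -1), (-1, 19, -16, 12, -49), (-1, 19, -9, 15, -34), (1, 23, -9, -6, 13), (1, 23, -7, 12, -17), (1, 27, -11, 6, -9), (1, 27, 1, 15, 6), (1, 31, -11, 18, -31), (1, 33, -13, 12, -21), (-1, 34, -21, 21, -64), (-1, 49, -26,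 30, -79), (-1, 54, -29, 33, -87), (1, 57, -14, 33, -39), (-1, 64, -31, 39, -94), (1, 68, -27, 39, -77), (-1, 79, -36, 48, -109), (1, 87, -29, 51, -84), (-1, 94, -41, 57, -124), (1, 117, -44, 69, -129), (1, 147, -59, 87, -174)]
  | 2, 0 => [(-1, 1, -2, 3, -1), (-1, 1, -1, 6, -1), (1, 1, 0, -6, 29), (1, 1, 0, -3, 29), (1, 1, 0, 0, 29), (1, 1, 0, 3, 29), (1, 1, 0, 6, 29), (-1, 1, 1, -6, -1), (-1, 1, 2, -3, -1), (-1, 1, 14, 0, 29), (-1, 3, -10, 3, -21), (1, 3, -7, 3, -6), (-1, 3, -4, 3, 9), (-1, 3, -2, 6, 9), (1, 3, -1, -6, 39), (1, 3, -1, 3, 24), (1, 3, 1, -3, 24), (1, 3, 1, 6, 39), (-1, 3, 2, -6, 9), (-1, 3, 4, -3, 9), (-1, 6, -31, 3, -63), (1, 6, -1, 3, 12), (1, 6, 1, -3, 12), (-1, 6, 7, -3, -3), (-1, 7, -29, 3, -58), (1, 7, -1, 3, 2), (1, 8, -3, 3, -2), (-1, 8, 29, 3, 58), (1, 9, -4, 3, 3), (-1, 9, 32, 3, 63), (1,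 12, -1, 3, 6), (-1, 12, 11, 3, 21), (-1, 22, -29, 9, -58), (1, 22, -7, 9, -13), (1, 23, 6, 9, 13), (-1, 23, 29, 9, 58), (-1, 37, -29, 15, -58), (1, 37, 8, 15, 17), (1, 38, -9, 15, -17), (-1, 38, 29, 15, 58)]
  | 2, 1 => [(1, 1, -1, 9, -16), (1, 1, 0, -24, 29), (1, 1, 0, -21, 29), (1, 1, 0, -18, 29), (1, 1, 0, -15, 29), (1, 2, -1, 15, -23), (1, 2, -1, 21, -38), (1, 2, -1, 27, -53), (1, 2, -1, 33, -68), (1, 2, 1, -3, 7), (1, 3, -2, 15, -21), (-1, 3, -1, -60, 129), (-1, 3, -1, -51, 114), (-1, 3, -1, -42, 99), (-1, 3, -1, -33, 84), (-1, 3, -1, -24, 69), (-1, 3, -1, -15, 54), (-1, 3, -1, -6, 39), (-1, 3, -1, 3, 24), (-1, 3, -1, 12, 9), (-1, 3, -1, 21, -6), (-1, 3, -1, 30, -21), (-1, 3, -1, 39, -36), (-1, 4, -1, -3, 11), (-1, 4, -1, 9, -4), (1, 6, -31, 3, -63), (1, 6, -1, -33, 42), (1, 6, -1, -15, 27), (1, 6, 1, -3, 12),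 (1, 7, -4, 6, -13), (-1, 8, -3, 3, -2), (1, 9, -11, 6, -27), (1, 9, -4, 30, -57), (-1, 9, -2, 6, 3), (1, 9, -1, -15, 18), (1, 11, 1, 3, 4), (-1, 13, -5, -3, 8), (-1, 13, -4, 6, -7), (1, 14, -1, 3, 1), (1, 16, -3, 3, -1), (1, 17, 3, 6, 7), (-1, 19, -7, 3, -4), (1, 21, -13, 12, -33), (-1, 21, -8, -12, 27), (-1, 21, -5, 6, -3), (-1, 22, -7, 9, -13), (-1, 23, -9, -6, 13), (1, 23, -5, 3, -2), (-1, 26, -7, 9, -11), (1, 26, -5, -3, 4), (-1, 27, -11, 6, -9), (1, 27, -5, -3, 6), (1, 28, -5, 9, -7), (-1, 29, -12, 0, 1), (1, 33, -17, 15, -36), (-1, 33, -13, 12, -21), (-1, 34, -9, 15, -19), (-1, 38, -9, 15, -17), (1, 39, 16, 15, 33), (1, 41, -19, 18, -41), (1, 51, -46, 21, -93), (-1, 57, -22, 21, -39), (-1, 61, -16, 24, -31), (1, 77, -12, 30, -23), (-1, 82, -29, 33, -58), (1, 84, 1, 33, 3), (-1, 87, -29, 33, -54), (-1, 91, -31,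 36, -61), (1, 96, -61, 39, -123), (-1, 97, -29, 39, -58), (-1, 99, -37, 39, -72), (-1, 112, -29, 45, -58), (-1, 117, -34, 48, -69), (-1, 121, -46, 48, -91), (-1, 127, -29, 51, -58), (1, 129, -14, 51, -27), (1, 141, -76, 57, -153), (-1, 151, -61, 60, -121), (1, 174, -29, 69, -57), (1, 186, -91, 75, -183), (1, 231, -106, 93, -213), (1, 276, -121, 111, -243)]
  | 2, 2 => [(-1, 1, -1, 9, -16), (1, 1, 0, -12, 29), (1, 1, 0, -9, 29), (1, 1, 14, 0, 29), (-1, 2, -3, 3, -8), (-1, 2, -1, 3, 7), (-1, 2, -1, 9, -8), (-1, 2, -1, 15, -23), (-1, 2, -1, 21, -38), (-1, 2, -1, 27, -53), (-1, 2, -1, 33, -68), (-1, 3, -7, 3, -6), (-1, 3, -2, 15, -21), (1, 3, -1, -60, 129), (1, 3, -1, -51, 114), (1, 3, -1, -42, 99), (1, 3, -1, -33, 84), (1, 3, -1, -24, 69), (1, 3, -1, -15, 54), (-1, 4, -3, 3, -4), (1, 4, -1, -3, 11), (-1, 6, 1, -3, 12),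 (-1, 7, -4, 6, -13), (-1, 9, -11, 6, -27), (-1, 9, -4, 3, 3), (-1, 9, -4, 30, -57), (-1, 11, -5, 6, -11), (1, 13, -5, -3, 8), (1, 19, -7, 3, -4), (-1, 21, -13, 12, -33), (1, 21, -8, -12, 27), (1, 21, -5, 6, -3), (1, 23, -9, -6, 13), (1, 26, -7, 9, -11), (-1, 27, -19, 12, -39), (1, 27, -11, 6, -9), (1, 29, -12, 0, 1), (1, 31, -1, 12, -1), (-1, 33, -17, 15, -36), (1, 33, -13, 12, -21), (-1, 36, -17, 15, -33), (-1, 41, -19, 18, -41), (-1, 51, -46, 21, -93), (-1, 52, -29, 21, -58), (1, 54, -7, 21, -12), (1, 57, -22, 21, -39), (1, 61, -16, 24, -31), (-1, 67, -29, 27, -58), (1, 87, -29, 33, -54), (1, 91, -31, 36, -61), (-1, 96, -61, 39, -123), (1, 99, -37, 39, -72), (1, 121, -46, 48, -91), (-1, 141, -76, 57, -153), (1, 151, -61, 60, -121), (-1, 186, -91, 75, -183), (-1, 231, -106, 93, -213), (-1, 276, -121, 111, -243)]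

/-- HK (`l = 2, 7, 11, 13, 19, 29`; from HKF, TRE, TRM). The rows of `T_l`: HKF with `J = [0, 1]` for `l = 2`, `J = [-(l-1)/2, ..., (l-1)/2]` for the others. -/
def THkL (l : ℕ) (T : Fin 3 → Fin 3 → List Tm) : Prop := ∀ (r s : ℕ) (G : ℤ → ℤ → ZMod 5), SymK 5 r (s + 1) G → ∀ i : Fin 3,
  (pfK (Tl l (5 ^ r) G) i : Fn5 (5 ^ r) (5 ^ s)) = ∑ f : Fin 3, opL (T i f) (pfK G f)

/-! ### The operators -/

/-- The operator `3 T_11 + 2 T_19 + 4`. -/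
def UoK {R : Type} [AddCommGroup R] (m : ℤ) (G : ℤ → ℤ → R) : ℤ → ℤ → R :=
  (3 : ℤ) • Tl 11 m G + (2 : ℤ) • Tl 19 m G + (4 : ℤ) • G

/-- The operator `2 T_2 T_7 + 2 T_7² + 3 T_2 T_13 + 3 T_19 + 3 T_29 + 3`. -/
def VoK {R : Type} [AddCommGroup R] (m : ℤ) (G : ℤ → ℤ → R) : ℤ → ℤ → R :=
  (2 : ℤ) • Tl 2 m (Tl 7 m G) + (2 : ℤ) • Tl 7 m (Tl 7 m G) + (3 : ℤ) • Tl 2 m (Tl 13 m G) + (3 : ℤ) • Tl 19 m G +
    (3 : ℤ) • Tl 29 m G + (3 : ℤ) • G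

/-- The operators at the origin: `T_2² + 3 T_2 + 2` for `c = 0`, `4 T_11 + 4 T_13 + 3 T_2 + 2` for `c = 1`, the identity for `c = 2`, `T_2 - 3` for `c ≥ 3`. -/
def PoK {R : Type} [AddCommGroup R] (m : ℤ) (c : ℕ) (G : ℤ → ℤ → R) : ℤ → ℤ → R :=
  if c = 0 then Tl 2 m (Tl 2 m G) + (3 : ℤ) • Tl 2 m G + (2 : ℤ) • G
  else if c = 1 then (4 : ℤ) • Tl 11 m G + (4 : ℤ) • Tl 13 m G + (3 : ℤ) • Tl 2 m G + (2 : ℤ) • G
  else if c = 2 then G else Tl 2 m G - (3 : ℤ) • G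

/-- The value of the symbol of `G` at `P_c U^i V^j {0, ∞}`. -/
def evK {R : Type} [AddCommGroup R] (m : ℤ) (G : ℤ → ℤ → R) (c i j : ℕ) : R :=
  (PoK m c ((UoK m)^[i] ((VoK m)^[j] G))) 1 0 - (PoK m c ((UoK m)^[i] ((VoK m)^[j] G))) 0 1

/-- Product of two `3 × 3` matrices of lists. -/
def mm3 (A B : Fin 3 → Fin 3 → List Tm) (i f : Fin 3) : List Tm :=
  mulL (A i 0) (B 0 f) ++ mulL (A i 1) (B 1 f) ++ mulL (A i 2) (B 2 f)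

/-- `c` times the identity matrix. -/
def id3 (c : ℤ) (i f : Fin 3) : List Tm := if i = f then [(c, 1, 0, 0, 1)] else []

/-- The rows of `3 T_11 + 2 T_19 + 4`. -/
def ULK (i f : Fin 3) : List Tm := sclL 3 (T11K i f) ++ sclL 2 (T19K i f) ++ id3 4 i f

/-- The rows of `2 T_2 T_7 + 2 T_7² + 3 T_2 T_13 + 3 T_19 + 3 T_29 + 3`. -/
def VLK (i f : Fin 3) : List Tm :=
  sclL 2 (mm3 T2K T7K i f) ++ sclL 2 (mm3 T7K T7K i f) ++ sclL 3 (mm3 T2K T13K i f) ++ sclL 3 (T19K i f) ++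
    sclL 3 (T29K i f) ++ id3 3 i f

/-- The first row of `T_2² + 3 T_2 + 2`. -/
def OCK (f : Fin 3) : List Tm := mm3 T2K T2K 0 f ++ sclL 3 (T2K 0 f) ++ id3 2 0 f

/-- The first row of `4 T_11 + 4 T_13 + 3 T_2 + 2`. -/
def ODK (f : Fin 3) : List Tm := sclL 4 (T11K 0 f) ++ sclL 4 (T13K 0 f) ++ sclL 3 (T2K 0 f) ++ id3 2 0 f

/-- The first row of `T_2 - 3`. -/
def OBK (f : Fin 3) : List Tm := T2K 0 f ++ id3 (-3) 0 f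

/-- Multipliers of the relation for `3 T_11 + 2 T_19 + 4`: `mUK i`. -/
def mUK : Fin 3 → List Tm
  | 0 => [(-1, 1, -1, 1, -2), (-1, 1, 0, -1, -3), (-2, 1, 0, 0, -1), (-1, 2, -1, 1, 2), (1, 2, 1, -1, 1), (-2, 2, 1, 0, -3), (-1, 2, 1, 1, 3), (1, 3, -1, 1, 1), (-2, 3, 0, 1, 2), (-2, 3, 1, 1, 3)]
  | 1 => [(-2, 1, -1, 0, -2), (1, 1, -1, 1, -1), (1, 1, 0, 1, 3), (-1, 2, 0, -1, -1), (2, 3, -1, 0, -2), (2, 3, 0, -1, 3), (2, 3, 1, -1, 1), (-1, 3, 1, 1, -3)]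
  | 2 => [(-2, 1, 0, 0, -3), (-1, 2, -1, 0, -1), (-2, 2, -1, 1, -2), (-2, 2, -1, 1, -1), (2, 2, 1, -1, -3), (-1, 2, 1, 1, 1), (2, 3, -1, 0, -1), (2, 3, 0, 0, 3), (1, 3, 1, 1, -2), (-1, 3, 1, 1, -1)]

/-- Multipliers of the relation for `2 T_2 T_7 + 2 T_7² + 3 T_2 T_13 + 3 T_19 + 3 T_29 + 3`: `mVK i`. -/
def mVK : Fin 3 → List Tm
  | 0 => [(-1, 1, -2, -1, -1), (1, 1, -2, 0, -1), (-2, 1, -2, 2, 3), (2, 1, -1, -2, 1), (2, 1, -1, -1, -3), (-2, 1, -1, -1, 2), (-2, 1, -1, 1, 1), (2, 1, -1, 2, -2), (-2, 1, -1, 2, 2), (2, 1, 0, -2, 2), (-2, 1, 0, -1, -2), (1, 1, 0, -1, 1), (1, 1, 0, 2, -2), (2, 1, 1, 0, -3), (-2, 1, 1, 0, 2), (-2, 1, 1, 1, -2), (2, 1, 1, 2, -2), (1, 1, 2, 1, -2), (-1, 1, 2, 1, -1), (-2, 1, 2, 1, 3), (-2, 1, 2, 2, -3), (-2, 2, -2, -1, -3), (-2, 2, -2, 0, -1), (-1, 2, -2, 0, 3), (-1, 2, -2, 1, -3), (2, 2, -2,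 1, -2), (-2, 2, -2, 1, -1), (-2, 2, -1, -2, 1), (-2, 2, -1, -2, 2), (2, 2, -1, 0, -1), (2, 2, -1, 1, 2), (2, 2, -1, 1, 3), (1, 2, 0, -2, -3), (-1, 2, 0, -1, 1), (-2, 2, 0, 0, 1), (1, 2, 0, 1, -3), (-1, 2, 1, -1, 3), (-2, 2, 1, 1, 1), (1, 2, 1, 2, -3), (1, 2, 2, 0, -2), (-2, 2, 2, 2, 2), (-1, 3, -2, -2, -1), (1, 3, -2, -2, 2), (2, 3, -2, -2, 3), (2, 3, -2, -1, 2), (-2, 3, -2, 0, -3), (-2, 3, -2, 2, -2), (2, 3, -1, -2, -3), (2, 3, -1, -2, 3), (2, 3, -1, -1, 2), (-2, 3, -1, 0, -2), (-2, 3, 0, -2, 2), (1, 3, 0, -1, -2), (-2, 3, 0, -1, 2), (1, 3, 0, 0, -2), (2, 3, 0, 0, -1), (1, 3, 0, 0, 2), (-1, 3, 0, 1, -3), (-2, 3, 1, -2, -1), (2, 3, 1, -2, 1), (-2, 3, 1, -1, -1), (-2, 3, 1, 1, 3), (1, 3, 1, 2, -3), (-2, 3, 1, 2, 1), (-2, 3, 2, -2, -1), (-1, 3, 2, -1, -2), (2, 3, 2, -1, 1), (1, 3, 2, -1, 2), (2, 3, 2, 0, 1), (2, 3, 2,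 0, 2), (-2, 3, 2, 1, -1), (2, 3, 2, 1, 2), (2, 3, 2, 2, -3)]
  | 1 => [(-1, 1, -2, -1, -1), (-2, 1, -2, -1, 2), (2, 1, -2, 0, -1), (-1, 1, -2, 1, -2), (1, 1, -2, 1, 3), (-2, 1, -2, 2, 2), (2, 1, -1, -2, -3), (-1, 1, -1, -2, 2), (2, 1, -1, -1, 3), (-2, 1, -1, 0, 1), (1, 1, -1, 2, -3), (-1, 1, -1, 2, 2), (2, 1, 0, -2, -3), (-1, 1, 0, 0, -2), (-1, 1, 0, 0, -1), (-1, 1, 0, 1, -2), (2, 1, 0, 1, 3), (2, 1, 0, 2, 2), (1, 1, 1, -2, -2), (-2, 1, 1, -1, -1), (2, 1, 1, -1, 1), (2, 1, 1, -1, 3), (1, 1, 1, 0, -3), (1, 1, 1, 0, -2), (2, 1, 1, 1, -2), (2, 1, 2, 1, 3), (1, 2, -2, -2, 3), (1, 2, -2, -1, -1), (1, 2, -2, -1, 3), (2, 2, -2, 1, 3), (1, 2, -2, 2, -3), (-1, 2, -2, 2, 2), (-1, 2, -1, -2, -3), (1, 2, -1, -2, -1), (2, 2, -1, -2, 1), (1, 2, -1, -2, 3), (-1, 2, -1, 1, -3), (-2, 2, -1, 1, -2), (2, 2, -1, 1, 1), (-2, 2, -1, 2,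 -1), (-1, 2, 0, -1, -2), (1, 2, 0, 1, 1), (1, 2, 0, 1, 2), (2, 2, 0, 2, 2), (1, 2, 1, -1, -2), (-2, 2, 1, 1, -2), (1, 2, 1, 1, -1), (-2, 2, 1, 1, 1), (-1, 2, 1, 2, -2), (2, 2, 2, -1, -2), (1, 2, 2, -1, 1), (2, 2, 2, -1, 2), (-2, 2, 2, 1, -1), (-2, 2, 2, 2, 2), (1, 2, 2, 2, 3), (-1, 3, -2, -2, -1), (1, 3, -2, -1, 1), (-1, 3, -2, 0, 3), (1, 3, -2, 1, -2), (1, 3, -2, 1, -1), (1, 3, -1, -2, -3), (1, 3, -1, -2, 1), (-2, 3, -1, 0, 3), (-2, 3, 0, -2, 1), (2, 3, 0, -1, -2), (-1, 3, 0, 0, -1), (2, 3, 0, 2, -3), (-1, 3, 0, 2, -2), (1, 3, 0, 2, 2), (-1, 3, 1, -1, -3), (-2, 3, 1, 0, 2), (2, 3, 1, 0, 3), (-1, 3, 1, 2, -2), (-1, 3, 1, 2, -1), (-1, 3, 2, -2, -3), (-2, 3, 2, -1, -2), (2, 3, 2, -1, -1), (-1, 3, 2, -1, 1), (1, 3, 2, 0, 1), (-1, 3, 2, 1, -2), (-1, 3, 2, 1, -1)]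
  | 2 => [(-1, 1, -2, -2, -1), (-2, 1, -2, -2, 3), (2, 1, -2, -1, -2), (-2, 1, -2, -1, 2), (-1, 1, -2, 1, 1), (-2, 1, -2, 2, -1), (-1, 1, -2, 2, 1), (2, 1, -2, 2, 2), (-2, 1, -1, -2, -3), (2, 1, -1, -1, -3), (1, 1, -1, -1, 1), (1, 1, -1, 1, -3), (1, 1, -1, 1, -2), (1, 1, -1, 2, 3), (1, 1, 0, -2, -1), (2, 1, 0, -2, 3), (-2, 1, 0, 0, 3), (2, 1, 0, 1, -3), (2, 1, 1, -2, -2), (-2, 1, 1, -2, 1), (-1, 1, 1, -2, 2), (-2, 1, 2, -1, 1), (-1, 1, 2, -1, 2), (1, 1, 2, -1, 3), (-2, 1, 2, 1, -2), (2, 1, 2, 1, -1), (-1, 1, 2, 1, 3), (2, 1, 2, 2, 1), (2, 1, 2, 2, 2), (1, 2, -2, -2, -2), (-1, 2, -2, -1, -2), (2, 2, -2, 0, 1), (1, 2, -2, 2, -2), (1, 2, -1, -2, 3), (-2, 2, -1, -1, -1), (-1, 2, -1, 0, -2), (2, 2, -1, 0, 1), (-1, 2, -1, 1, -1), (1, 2, -1, 1, 1), (2, 2, -1, 2, 2), (1, 2, 0, -2, -3), (-2, 2, 0, -2, 3), (-2, 2, 0, -1, 3),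 (-2, 2, 0, 0, -1), (-2, 2, 0, 0, 2), (1, 2, 0, 1, 3), (2, 2, 0, 2, -2), (1, 2, 0, 2, -1), (-2, 2, 0, 2, 1), (-1, 2, 0, 2, 3), (-2, 2, 1, -2, 3), (-2, 2, 1, -1, -2), (-2, 2, 1, -1, 1), (-1, 2, 1, 2, -3), (2, 2, 1, 2, -2), (2, 2, 1, 2, 1), (1, 2, 1, 2, 2), (2, 2, 2, -2, -1), (-1, 2, 2, -2, 1), (-1, 2, 2, 0, -1), (-2, 2, 2, 1, -3), (2, 2, 2, 2, 2), (2, 3, -2, -2, -1), (2, 3, -2, -1, -1), (2, 3, -2, -1, 3), (-2, 3, -2, 0, -3), (-2, 3, -2, 1, -2), (1, 3, -2, 2, -1), (-1, 3, -1, -2, 3), (2, 3, -1, -1, -3), (2, 3, -1, 0, 1), (-1, 3, -1, 1, -2), (-2, 3, -1, 1, -1), (1, 3, -1, 2, -3), (1, 3, 0, -2, -2), (2, 3, 0, 0, 2), (-1, 3, 0, 2, -2), (2, 3, 1, -1, -1), (-2, 3, 1, 0, 1), (-1, 3, 1, 0, 3), (2, 3, 1, 1, 2), (-1, 3, 2, -1, 2), (2, 3, 2, 0, -2), (2, 3, 2, 1, -3)]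

/-- `3 T_11 + 2 T_19 + 4` minus multiples of the relation. -/
def BUK (i f : Fin 3) : List Tm := ULK i f ++ sclL (-1) (mulL (mUK i) (relK f))

/-- `2 T_2 T_7 + 2 T_7² + 3 T_2 T_13 + 3 T_19 + 3 T_29 + 3` minus multiples of the relation. -/
def BVK (i f : Fin 3) : List Tm := VLK i f ++ sclL (-1) (mulL (mVK i) (relK f))

/-- The first row of `T_2² + 3 T_2 + 2` minus multiples of the relation. -/
def BCK (f : Fin 3) : List Tm := OCK f ++ sclL (-1) (mulL [(1, 2, 0, -1, 2), (-1, 2, 1, 1, -1)] (relK f))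

/-- The first row of `4 T_11 + 4 T_13 + 3 T_2 + 2` minus multiples of the relation. -/
def BDK (f : Fin 3) : List Tm :=
  ODK f ++ sclL (-1) (mulL [(-1, 1, -1, 1, 2), (-2, 1, 0, -1, -2), (-2, 1, 0, 0, -1), (-1, 1, 0, 1, -2), (-1, 1, 1, 0, 1), (1, 2, -1, 1, 1)] (relK f))

/-- The leading operator of `3 T_11 + 2 T_19 + 4`. -/
def QoK {q q' : ℕ} : Module.End (ZMod 5) (Fn5 q q') := dX * dY

/-- The leading operator of `2 T_2 T_7 + 2 T_7² + 3 T_2 T_13 + 3 T_19 + 3 T_29 + 3`. -/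
def LoK {q q' : ℕ} : Module.End (ZMod 5) (Fn5 q q') := dX * dY * (dX ^ 2 + dY ^ 2) ^ 2

/-- The leading operator of `T_2² + 3 T_2 + 2` at the origin in degree 2, on `F0`. -/
def Mc0 {q q' : ℕ} : Module.End (ZMod 5) (Fn5 q q') := (3 : ZMod 5) • (dX ^ 2 + dX * dY)

/-- The same on `F1`. -/
def Mc1 {q q' : ℕ} : Module.End (ZMod 5) (Fn5 q q') := dX ^ 2 + dY ^ 2

/-- The same on `F2`. -/
def Mc2 {q q' : ℕ} : Module.End (ZMod 5) (Fn5 q q') := (4 : ZMod 5) • (dX * dY)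

/-- The leading operator of `4 T_11 + 4 T_13 + 3 T_2 + 2` at the origin in degree 4, on `F0` (on `F1` it is zero). -/
def Md0 {q q' : ℕ} : Module.End (ZMod 5) (Fn5 q q') :=
  dX ^ 3 * dY + (4 : ZMod 5) • (dX * dY ^ 3) + (4 : ZMod 5) • (dX ^ 2 * dY ^ 2)

/-- The same on `F2`. -/
def Md2 {q q' : ℕ} : Module.End (ZMod 5) (Fn5 q q') := (2 : ZMod 5) • (dX ^ 2 * dY ^ 2)

/-! ### Certificates (finite computations) -/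

/-- CEG. All terms are good. -/
def TCeG : Prop := ∀ i : Fin 3, (∀ f : Fin 3, (∀ t ∈ T2K i f, Gd t) ∧ (∀ t ∈ T7K i f, Gd t) ∧ (∀ t ∈ T11K i f, Gd t) ∧
  (∀ t ∈ T13K i f, Gd t) ∧ (∀ t ∈ T19K i f, Gd t) ∧ (∀ t ∈ T29K i f, Gd t)) ∧ (∀ t ∈ relK i, Gd t) ∧
  (∀ t ∈ mUK i, Gd t) ∧ (∀ t ∈ mVK i, Gd t)

/-- CEU. The coefficients of `3 T_11 + 2 T_19 + 4` (row `i`, column `f`). -/
def TCeU : Prop := ∀ i f : Fin 3, ∀ w : Fin 4, ∀ t ∈ M7, t.1 + 4 * t.2.1 + t.2.2 ≤ 2 → (5 : ℤ) ∣ cS (BUK i f) w t.1 t.2.1 t.2.2 -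
    (if i = f ∧ w = 0 ∧ t = (1, 0, 1) then 1 else 0)

/-- CEV. The coefficients of `2 T_2 T_7 + 2 T_7² + 3 T_2 T_13 + 3 T_19 + 3 T_29 + 3` (row `i`, column `f`; lists of 517, 692, 528; 700, 1039, 760; 698, 1056, 783 terms). -/
def TCeV : Prop := ∀ i f : Fin 3, ∀ w : Fin 4, ∀ t ∈ M7, (5 : ℤ) ∣ cS (BVK i f) w t.1 t.2.1 t.2.2 -
    (if i = f ∧ w = 0 then (if t = (1, 0, 5) ∨ t = (5, 0, 1) then 1 else if t = (3, 0, 3) then 2 else 0) else 0)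

/-- CEB. The coefficients of `T_2 - 3` at the origin in degree 0. -/
def TCeB : Prop := ∀ f : Fin 3, (5 : ℤ) ∣ nS (OBK f) 0 0 - (if f = 2 then 4 else 0)

/-- CEC. The coefficients of `T_2² + 3 T_2 + 2` at the origin. -/
def TCeC : Prop := ∀ f : Fin 3, ∀ i < 3, ∀ j < 3, i + j ≤ 2 → (5 : ℤ) ∣ nS (BCK f) i j -
    (if f = 0 then (if i ≠ 0 ∧ i + j = 2 then 3 else 0) else if f = 1 then (if (i = 2 ∧ j = 0) ∨ (i = 0 ∧ j = 2) then 1 else 0)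
      else (if i = 1 ∧ j = 1 then 4 else 0))

/-- CED. The coefficients of `4 T_11 + 4 T_13 + 3 T_2 + 2` at the origin. -/
def TCeD : Prop := ∀ f : Fin 3, ∀ i < 5, ∀ j < 5, i + j ≤ 4 → (5 : ℤ) ∣ nS (BDK f) i j -
    (if f = 0 then (if i = 3 ∧ j = 1 then 1 else if (i = 1 ∧ j = 3) ∨ (i = 2 ∧ j = 2) then 4 else 0)
      else if f = 1 then 0 else (if i = 2 ∧ j = 2 then 2 else 0))

/-! ### Leading forms -/

/-- LDU (from TRM, LOW0, NFA, EXP, RLL, CEG, CEU). Leading forms of `3 T_11 + 2 T_19 + 4`, for `F0`, `F1`, `F2` of degree at most `d` (any integer) satisfying the relation. As in TH: modulo the relation (RLL, `opL (mulL L L') = opL L * opL L'`) the rows are the lists `BUK`, and EXP with the certificates gives the leading forms; row `i`: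
`(oB - 1) * (oA - 1)` on `F_i` (`oW 0 = 1`) plus weight at least `3`; `oB - 1 ≡ dY`, `oA - 1 ≡ dX` up to lowering by `3` (NFA). Model: `Pool/Agent/Helper26/TH/M_LdU.lean`. -/
def TLdU : Prop := ∀ (r s : ℕ) (d : ℤ) (F : Fin 3 → Fn5 (5 ^ r) (5 ^ s)), RelK F → (∀ i, F i ∈ Wd5 d) →
  ∀ i : Fin 3, (∑ f : Fin 3, opL (ULK i f) (F f)) - QoK (F i) ∈ Wd5 (d - 3)

/-- LDV (from TRM, LOW0, NFA, EXP, RLL, CEG, CEV). Leading forms of the second operator: row `i` of `BVK` is `(oB-1)(oA-1)^5 + 2 (oB-1)^3(oA-1)^3 + (oB-1)^5(oA-1)` on `F_i` plus terms which lower by `7`. Model: `Pool/Agent/Helper77/TH/M_LdV.lean`. -/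
def TLdV : Prop := ∀ (r s : ℕ) (d : ℤ) (F : Fin 3 → Fn5 (5 ^ r) (5 ^ s)), RelK F → (∀ i, F i ∈ Wd5 d) →
  ∀ i : Fin 3, (∑ f : Fin 3, opL (VLK i f) (F f)) - LoK (F i) ∈ Wd5 (d - 7)

/-- OMC (from TRM, LOW0, RLL, CEG, CEC). The value at the origin of `T_2² + 3 T_2 + 2`, degree at most `2` (as OMA of TH: `F` has periods `5`, Newton expansion at the origin). Model: `Pool/Agent/Helper1/TH/M_Om.lean`. -/
def TOmC : Prop := ∀ (r s : ℕ) (F : Fin 3 → Fn5 (5 ^ r) (5 ^ s)), RelK F → (∀ i, F i ∈ Wd5 2) →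
  (∑ f : Fin 3, opL (OCK f) (F f)) 0 0 = Mc0 (F 0) 0 0 + Mc1 (F 1) 0 0 + Mc2 (F 2) 0 0

/-- OMD (from TRM, LOW0, RLL, CEG, CED). The value at the origin of `4 T_11 + 4 T_13 + 3 T_2 + 2`, degree at most `4`. -/
def TOmD : Prop := ∀ (r s : ℕ) (F : Fin 3 → Fn5 (5 ^ r) (5 ^ s)), RelK F → (∀ i, F i ∈ Wd5 4) →
  (∑ f : Fin 3, opL (ODK f) (F f)) 0 0 = Md0 (F 0) 0 0 + Md2 (F 2) 0 0

/-- OMB (from LOW0, CEB). The value at the origin of `T_2 - 3`, degree at most `0` (constant functions). -/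
def TOmB : Prop := ∀ (r s : ℕ) (F : Fin 3 → Fn5 (5 ^ r) (5 ^ s)), (∀ i, F i ∈ Wd5 0) →
  (∑ f : Fin 3, opL (OBK f) (F f)) 0 0 = -(F 2 0 0)

/-- LW1 (from LOW0, NFA, NF, BB). With `β = (9 -2; 15 -3)` (root of unity `≡ 3`), `α = (12 -5; 15 -6)` (root of unity `≡ 2`), `β² = (17 -4; 30 -7)` (root of unity `-1`), `α β = (11 -3; 15 -4)` (root of unity `1`), up to scalars: normal forms by NF (`β' = b/a`, `om = d/a - ...`, exponents as in EXP). `op5 11 (-3) 3 (-4)`: `w = 0`,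
`γ ≡ 3`, `β' ≡ 2` modulo `5`. On `bb5 i j`: `oW w (bb5 i j) ≡ om^i om^(-j) bb5 i j`, `om^(-1) = om^3` modulo `5`. Model: `Pool/Agent/Helper99/TH/M_Lw1.lean`. -/
def TLw1 : Prop := ∀ (r s : ℕ),
  Lw (op5 11 (-3) 3 (-4) - 1 - (2 : ZMod 5) • dX - (3 : ZMod 5) • dY : Module.End (ZMod 5) (Fn5 (5 ^ r) (5 ^ s))) 2 ∧
  (∀ (d : ℤ) (F : Fn5 (5 ^ r) (5 ^ s)), F ∈ Wd5 d → Even d → op5 17 (-4) 6 (-7) F - F ∈ Wd5 (d - 1)) ∧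
  (∀ (d : ℤ) (F : Fn5 (5 ^ r) (5 ^ s)), F ∈ Wd5 d → Odd d → op5 17 (-4) 6 (-7) F + F ∈ Wd5 (d - 1)) ∧
  (∀ i j : ℕ, i < 5 ^ r → j < 5 ^ s → op5 9 (-2) 3 (-3) (bb5 i j : Fn5 (5 ^ r) (5 ^ s)) -
    (3 : ZMod 5) ^ (i + 3 * j) • bb5 i j ∈ Wd5 ((i : ℤ) + j - 1)) ∧
  (∀ i j : ℕ, i < 5 ^ r → j < 5 ^ s → op5 12 (-5) 3 (-6) (bb5 i j : Fn5 (5 ^ r) (5 ^ s)) -
    (2 : ZMod 5) ^ (i + 3 * j) • bb5 i j ∈ Wd5 ((i : ℤ) + j - 1))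

/-- SUR (from TRM, LOW0, NFA, S5Lw1 (first part: all `op5` preserve degrees), LW1, BB). Solving the inhomogeneous relation below the top degree, no parity needed. Proof by induction (downwards until `Wd5 (-1) = 0`): it is enough to solve up to an error in `Wd5 (e - 1)`. Every `E ∈ Wd5 e` with `e < 5^r + 5^s - 2` is
`dX P + dY Q` with `P, Q ∈ Wd5 (e+1)` (as in `S5Sur`, by BB). Take `f = -(P + Q)`, `a = 2 Q`, `b = 2 β Q`: `f - T f ≡ dX (P + Q)`; `-(a - β a) - (b - α b) = -2Q + 2βQ - 2βQ + 2αβQ = 2 (αβ - 1) Q ≡ 4 dX Q + 6 dY Q = -dX Q + dY Q` modulo `Wd5 (e-1)` (`α β` is the operator `op5 11 (-3) 3 (-4)` by TRM; LW1). The sum is `E`.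
Model: `Pool/Agent/Helper9/TH/M_Sur.lean`, `Pool/Agent/Helper79/W5/M_Sur.lean`. -/
def TSur : Prop := ∀ (r s : ℕ) (e : ℤ) (E : Fn5 (5 ^ r) (5 ^ s)), e < 5 ^ r + 5 ^ s - 2 → E ∈ Wd5 e →
  ∃ f a b : Fn5 (5 ^ r) (5 ^ s), f ∈ Wd5 (e + 1) ∧ a ∈ Wd5 (e + 1) ∧ b ∈ Wd5 (e + 1) ∧
    f - op5 1 1 0 1 f - (a - op5 9 (-2) 3 (-3) a) - (b - op5 12 (-5) 3 (-6) b) = E

/-- LED (from TRM, LOW0, NFA, S5Lw1 (first part), LW1, BB, SUR). Solutions of the relation with given leading forms `u`, `v`, `z` of `F0`, `F1`, `F2`, `d = al + be` even (`z = 0` if `al + 3 be ≡ 2` modulo `4`). With `f = F0`, `a = F1`, `b = F2 - F1` the relation is `f - T f - (a - β a) - (b - α b) = 0`. Start with `f⁰ = u bb`, `a⁰ = v bb`,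
`b⁰ = (z - v) bb`, `bb = bb5 al be`: `f⁰ - T f⁰` has degree at most `d - 1`, and `(a⁰ - β a⁰) + (b⁰ - α b⁰) ≡ v (1 - 3^k) bb + (z - v)(1 - 2^k) bb`, `k = al + 3 be`: zero for `k ≡ 0` modulo `4`, and `2 v + 2 (z - v) = 2 z = 0` for `k ≡ 2`. So the defect `E⁰` has degree at most `d - 1`, odd: adding
`a' = 2 (E' + β E')`, `E' = -E⁰`, to `a⁰` (`-(a' - β a') ≡ -2 (E' + βE' - βE' - β²E') ≡ -4 E' = E'` by `β² ≡ -1` on odd degree) makes it of degree at most `d - 2 < 5^r + 5^s - 2`; then subtract the solution of SUR, whose functions have degree at most `d - 1`. Model: `Pool/Agent/Helper41/TH/M_Led.lean`. -/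
def TLed : Prop := ∀ (r s al be : ℕ) (u v z : ZMod 5), al < 5 ^ r → be < 5 ^ s → Even (al + be) →
  ((al + 3 * be) % 4 = 2 → z = 0) →
  ∃ F : Fin 3 → Fn5 (5 ^ r) (5 ^ s), RelK F ∧ F 0 - u • bb5 al be ∈ Wd5 ((al : ℤ) + be - 1) ∧
    F 1 - v • bb5 al be ∈ Wd5 ((al : ℤ) + be - 1) ∧ F 2 - z • bb5 al be ∈ Wd5 ((al : ℤ) + be - 1)

/-- ITR (from REL, HKB, HK, LOW0, LDU, LDV, OMB, OMC, OMD). Iteration. For a symbol `G` modulo 5 of level `(r, s+1)` with `F0(G), F1(G), F2(G) ∈ Wd5 d`. As in TH: the functions of `(UoK m)^i (VoK m)^j G` have degrees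
`d' = d - 2i - 6j`, and `F_f ≡ QoK^i LoK^j F_f(G)` modulo `Wd5 (d' - 1)`. `evK m G c i j` is the value at `(0,0)` of `F0` of `P_c (UoK m)^i (VoK m)^j G` (the standard matrix of `(0,0)` is `1`: `rY5 0 0 0 = 0`); for `c = 0, 1, 3` use OMC, OMD, OMB if `d' ≤ 2`, `d' ≤ 4`, `d' ≤ 0`. Model: `Pool/Agent/Helper94/TH/M_Itr.lean`. -/
def TItr : Prop := ∀ (r s : ℕ) (G : ℤ → ℤ → ZMod 5) (d : ℕ), SymK 5 r (s + 1) G →
  (∀ f, (pfK G f : Fn5 (5 ^ r) (5 ^ s)) ∈ Wd5 (d : ℤ)) →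
  ∀ i j : ℕ,
  (d < 2 * i + 6 * j → evK (5 ^ r) G 2 i j = 0 ∧ evK (5 ^ r) G 3 i j = 0) ∧
  (2 * i + 6 * j = d → evK (5 ^ r) G 2 i j =
    ((QoK ^ i * LoK ^ j : Module.End (ZMod 5) (Fn5 (5 ^ r) (5 ^ s))) (pfK G 0)) 0 0 ∧
    evK (5 ^ r) G 3 i j = -((QoK ^ i * LoK ^ j : Module.End (ZMod 5) (Fn5 (5 ^ r) (5 ^ s))) (pfK G 2)) 0 0) ∧
  (d < 2 * i + 6 * j + 2 → evK (5 ^ r) G 0 i j = 0) ∧
  (2 * i + 6 * j + 2 = d → evK (5 ^ r) G 0 i j =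
    ((Mc0 * QoK ^ i * LoK ^ j : Module.End (ZMod 5) (Fn5 (5 ^ r) (5 ^ s))) (pfK G 0)) 0 0 +
    ((Mc1 * QoK ^ i * LoK ^ j : Module.End (ZMod 5) (Fn5 (5 ^ r) (5 ^ s))) (pfK G 1)) 0 0 +
    ((Mc2 * QoK ^ i * LoK ^ j : Module.End (ZMod 5) (Fn5 (5 ^ r) (5 ^ s))) (pfK G 2)) 0 0) ∧
  (d < 2 * i + 6 * j + 4 → evK (5 ^ r) G 1 i j = 0) ∧
  (2 * i + 6 * j + 4 = d → evK (5 ^ r) G 1 i j =
    ((Md0 * QoK ^ i * LoK ^ j : Module.End (ZMod 5) (Fn5 (5 ^ r) (5 ^ s))) (pfK G 0)) 0 0 +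
    ((Md2 * QoK ^ i * LoK ^ j : Module.End (ZMod 5) (Fn5 (5 ^ r) (5 ^ s))) (pfK G 2)) 0 0)

/-- The exponents of the families: `c = 0`: `(2, 0)`, `c = 1`: `(3, 1)`, `c = 2, 3`: `(0, 0)`. -/
def aK (c : ℕ) : ℕ := if c = 0 then 2 else if c = 1 then 3 else 0

/-- See `aK`. -/
def bK (c : ℕ) : ℕ := if c = 1 then 1 else 0

/-- TRI (from LOW0, BB, LED, EX, ITR). Triangular system of symbols modulo 5. For `(c, i, j)`, `c ≤ 3`, put `al = aK c + i + 5j < 5^r`, `be = bK c + i + j < 5^s`, `D = al + be = aK c + bK c + 2i + 6j` (even); take LED with leading forms `(u, v, z) = (0, 1, 0)` for `c = 0` (`al + 3 be = 2 + 4i + 8j ≡ 2` modulo `4`), `(1, 0, 0)` for `c = 1`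
(`al + 3 be ≡ 2`) and `c = 2` (`≡ 0`), `(0, 0, 1)` for `c = 3` (`≡ 0`), and the symbol `G` of EX. By ITR `evK G c' i' j' = 0` if `D' > D`. Let `D' = D`, `X`, `Y` for `dX`, `dY`; terms of degree lower than `D` are killed; `Q = XY`, `L = XY (X² + Y²)²` have only monomials `X^a Y^b` with `a - b ≡ 0` modulo `4`.
`c = 0` (`F0 ≡ F2 ≡ 0`, `F1 ≡ bb5 al be`): `c' = 1, 2, 3` give `0`; `c' = 0` gives `((X² + Y²)(XY)^(i'+j')(X² + Y²)^(2j') bb5 al be)(0,0)`: zero if `i' + j' > be = i + j`, `1` for `(i', j') = (i, j)` (the coefficient of `X^(2+4j)`). `c = 1` (`F1 ≡ F2 ≡ 0`, `F0 ≡ bb5 al be`, `al - be = 2 + 4j`): `c' = 3`: `F2`: zero; `c' = 2`: only monomials with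
`a - b ≡ 0` modulo `4`: zero; `c' = 1`: the part `XY (X² + 4 Y²)` of `Md0` (the part `4X²Y²` gives zero): zero if `i' + j' + 1 > be`, `1` for `(i, j)`; `c' = 0 < c` is allowed. `c = 2` (`F0 ≡ bb5 al be`, `F1 ≡ F2 ≡ 0`): `c' = 3`: zero; `c' = 2`: zero if `i' + j' > be`, `1` for `(i, j)`; `c' = 0, 1 < c` are allowed. `c = 3`
(`F0 ≡ F1 ≡ 0`, `F2 ≡ bb5 al be`): `c' = 3`: zero if `i' + j' > be`, `-1` for `(i, j)`; the others are allowed. Model: `Pool/Agent/Helper6/TH/M_Tri.lean`. -/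
def TTri : Prop := ∀ (r s c i j : ℕ), c ≤ 3 → aK c + i + 5 * j < 5 ^ r → bK c + i + j < 5 ^ s →
  ∃ G : ℤ → ℤ → ZMod 5, SymK 5 r (s + 1) G ∧ evK (5 ^ r) G c i j ≠ 0 ∧
    ∀ c' i' j' : ℕ, c' ≤ 3 → evK (5 ^ r) G c' i' j' ≠ 0 →
      (aK c' + bK c' + 2 * i' + 6 * j' < aK c + bK c + 2 * i + 6 * j ∨
        (aK c' + bK c' + 2 * i' + 6 * j' = aK c + bK c + 2 * i + 6 * j ∧
          (c' < c ∨ (c' = c ∧ i' + j' ≤ i + j))))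

/-- LIFP (from TRM). Lifting solutions of the relation to integers. Take any integral lifts of `f = f0`, `a = f1`, `b = f2 - f1`; the defect `E = f - T f - (a - β a) - (b - α b)` is divisible by 5 and has total sum zero over the plane (`p ↦ pT` etc. are bijections, TRM); `E/5` has total sum zero, and every integral function with sum zero is the defect of some
`(f, a, b)`, because modulo defects `δ_p ≡ δ_(pg)` for `g = T, β, α`, so also for `B' = (1 0; -15 1) = T⁻¹ α β⁻¹ α⁻¹ β` (up to scalars; `α β⁻¹ = (13 -7; 15 -8)`, `α⁻¹ β = (7 -1; 15 -2)`, product `(-14 1; -15 1)`), and the plane is connected under `T` and `B'` (`(x,y) T^z = (x + z, y/(1 + 5zy))`,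
`(x, y) B'^z = (x/(1 - 15zx), y - 3z)`, `3` is invertible: move to `(0, y')` and then to `(0,0)`). Subtract `5` times this solution; `F0 = f`, `F1 = a`, `F2 = a + b`. Model: `Pool/Agent/Helper21/TH/M_Lifp.lean`. -/
def TLifp : Prop := ∀ (r s : ℕ) (f : Fin 3 → Fn5 (5 ^ r) (5 ^ s)), RelK f →
  ∃ F : Fin 3 → ZMod (5 ^ r) → ZMod (5 ^ s) → ℤ, RelK F ∧
    ∀ i x y, ((F i x y : ℤ) : ZMod 5) = f i x y

/-- LIF (from REL, LIFP, EX, UNI). Lifting symbols: every symbol `g` modulo 5 lifts to an integral symbol `G` with the same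
`evK` modulo 5. Model: `Pool/Agent/Helper27/TH/M_Lif.lean`. -/
def TLif : Prop := ∀ (r s : ℕ) (g : ℤ → ℤ → ZMod 5), SymK 5 r (s + 1) g →
  ∃ G : ℤ → ℤ → ℤ, SymK 5 r (s + 1) G ∧
    ∀ c i j : ℕ, ((evK (5 ^ r) G c i j : ℤ) : ZMod 5) = evK (5 ^ r) g c i j

/-- UNB. Back to `Γ₀(3·5^n)` and to complex values: if `G` is an integral symbol of level `(r, s)` then
`G0(p,q) = G(5^r p, q)` (as complex numbers) is a symbol of level `(0, r+s)` with `evK 1 G0 = evK (5^r) G`. Model: `Pool/Agent/Helper97/TH/M_Unb.lean`. -/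
def TUnb : Prop := ∀ (r s : ℕ) (G : ℤ → ℤ → ℤ), SymK 5 r s G →
  SymK 5 0 (r + s) (fun p q => ((G (5 ^ r * p) q : ℤ) : ℂ)) ∧
    ∀ c i j : ℕ, evK 1 (fun p q => ((G (5 ^ r * p) q : ℤ) : ℂ)) c i j = ((evK (5 ^ r) G c i j : ℤ) : ℂ)

/-- CNT. Counting the index sets. `DDE 3 ddK5 (2k) = 2t² + t`, `DDE 3 ddK5 (2k+1) = 10t² + 5t` with `t = 5^(k-1)` (`k ≥ 1`; induction: `3, 15, 55, 275`). First set: the first condition follows from the second; `c = 0, 2, 3`: `t(t+1)/2` each, `c = 1`: `t(t-1)/2`. Second set: the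
second condition follows from the first; `c = 2, 3`: `∑_{j<t} (5t - 5j) = 5t(t+1)/2`, `c = 0`: `5t(t+1)/2 - 2t`, `c = 1`: `5t(t+1)/2 - 3t`. Model: `Pool/Agent/Helper12/TH/M_Cnt.lean`. -/
def TCnt : Prop :=
  (∀ k : ℕ, 1 ≤ k → ((Finset.range 4 ×ˢ Finset.range (5 ^ k) ×ˢ Finset.range (5 ^ k)).filter
    fun t : ℕ × ℕ × ℕ => aK t.1 + t.2.1 + 5 * t.2.2 < 5 ^ k ∧ bK t.1 + t.2.1 + t.2.2 < 5 ^ (k - 1)).card = DDE 3 ddK5 (2 * k)) ∧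
  (∀ k : ℕ, 1 ≤ k → ((Finset.range 4 ×ˢ Finset.range (5 ^ k) ×ˢ Finset.range (5 ^ k)).filter
    fun t : ℕ × ℕ × ℕ => aK t.1 + t.2.1 + 5 * t.2.2 < 5 ^ k ∧ bK t.1 + t.2.1 + t.2.2 < 5 ^ k).card = DDE 3 ddK5 (2 * k + 1))

/-- LB from TRI, LIF, UNB, CNT. As in TH (lexicographic order of `D = aK c + bK c + 2i + 6j`, `c`, `i + j`); the set of all `K` with `evw 1 ls K = 0` for all
words is stable under `Tl l 1`, `l = 2, 7, 11, 13, 19, 29`, sums and integer multiples. Model: `Pool/Agent/Helper74/TH/M_LBof.lean`. -/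
def TLBof : Prop := TTri → TLif → TUnb → TCnt → LBK 5 3 ddK5

end Pool.Agent.Helper4.TK
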