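import Pool.Agent.Helper4.TK.M_CertV00
import Pool.Agent.Helper4.TK.M_CertV01
import Pool.Agent.Helper4.TK.M_CertV02
import Pool.Agent.Helper4.TK.M_CertV10
import Pool.Agent.Helper4.TK.M_CertV11
import Pool.Agent.Helper4.TK.M_CertV12
import Pool.Agent.Helper4.TK.M_CertV20
import Pool.Agent.Helper4.TK.M_CertV21
import Pool.Agent.Helper4.TK.M_CertV22

/-!
# Project TK: finite certificate for the second operator
-/

set_option autoImplicit false

namespace Pool.Agent.Helper4.TK

theorem hCeV : TCeV := by
  intro i f
  fin_cases i <;> fin_cases f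
  · exact hCeV00
  · exact hCeV01
  · exact hCeV02
  · exact hCeV10
  · exact hCeV11
  · exact hCeV12
  · exact hCeV20
  · exact hCeV21
  · exact hCeV22

end Pool.Agent.Helper4.TK
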