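import Pool.Agent.Helper4.TK.HkCore

/-!
# Project TK: the rows of the Hecke operators `T_13`, `T_19`
-/

set_option autoImplicit false
set_option maxRecDepth 100000

namespace Pool.Agent.Helper4.TK

open Pool.Agent.Helper14.W5 (S5Trm)

/-- HK, `l = 13`. -/
theorem hHk13 (hf : THkF) (ht : TTre) (hm : S5Trm) : THkL 13 T13K := by
  intro r s G hG i
  rw [Fin.sum_univ_three]
  fin_cases i
  · exact row5 hf ht hm 13 (by norm_num) (by norm_num) (by norm_num) [-6, -5, -4, -3, -2, -1, 0, 1, 2, 3, 4, 5, 6] (by decide +kernel) rfl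
      (by decide +kernel) 1 0 0 1 (Or.inl one_ne_zero) (Or.inr one_ne_zero) (T13K 0 0) (T13K 0 1) (T13K 0 2)
      (by decide +kernel) r s G hG
  · exact row5 hf ht hm 13 (by norm_num) (by norm_num) (by norm_num) [-6, -5, -4, -3, -2, -1, 0, 1, 2, 3, 4, 5, 6] (by decide +kernel) rfl
      (by decide +kernel) 1 3 0 1 (Or.inl one_ne_zero) (Or.inr one_ne_zero) (T13K 1 0) (T13K 1 1) (T13K 1 2)
      (by decide +kernel) r s G hG
  · exact row5 hf ht hm 13 (by norm_num) (by norm_num) (by norm_num) [-6, -5, -4, -3, -2, -1, 0, 1, 2, 3, 4, 5, 6] (by decide +kernel) rfl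
      (by decide +kernel) 1 2 0 1 (Or.inl one_ne_zero) (Or.inr one_ne_zero) (T13K 2 0) (T13K 2 1) (T13K 2 2)
      (by decide +kernel) r s G hG

/-- HK, `l = 19`. -/
theorem hHk19 (hf : THkF) (ht : TTre) (hm : S5Trm) : THkL 19 T19K := by
  intro r s G hG i
  rw [Fin.sum_univ_three]
  fin_cases i
  · exact row5 hf ht hm 19 (by norm_num) (by norm_num) (by norm_num) [-9, -8, -7, -6, -5, -4, -3, -2, -1, 0, 1, 2, 3, 4, 5, 6, 7, 8, 9] (by decide +kernel) rfl
      (by decide +kernel) 1 0 0 1 (Or.inl one_ne_zero) (Or.inr one_ne_zero) (T19K 0 0) (T19K 0 1) (T19K 0 2)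
      (by decide +kernel) r s G hG
  · exact row5 hf ht hm 19 (by norm_num) (by norm_num) (by norm_num) [-9, -8, -7, -6, -5, -4, -3, -2, -1, 0, 1, 2, 3, 4, 5, 6, 7, 8, 9] (by decide +kernel) rfl
      (by decide +kernel) 1 3 0 1 (Or.inl one_ne_zero) (Or.inr one_ne_zero) (T19K 1 0) (T19K 1 1) (T19K 1 2)
      (by decide +kernel) r s G hG
  · exact row5 hf ht hm 19 (by norm_num) (by norm_num) (by norm_num) [-9, -8, -7, -6, -5, -4, -3, -2, -1, 0, 1, 2, 3, 4, 5, 6, 7, 8, 9] (by decide +kernel) rfl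
      (by decide +kernel) 1 2 0 1 (Or.inl one_ne_zero) (Or.inr one_ne_zero) (T19K 2 0) (T19K 2 1) (T19K 2 2)
      (by decide +kernel) r s G hG

end Pool.Agent.Helper4.TK
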