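import Pool.Agent.Helper4.TK.M_CertA
import Pool.Agent.Helper4.TK.M_CertV
import Pool.Agent.Helper4.TK.M_HkA
import Pool.Agent.Helper4.TK.M_HkB
import Pool.Agent.Helper4.TK.M_HkC
import Pool.Agent.Helper61.TK.M_Edg
import Pool.Agent.Helper88.TK.M_Tre
import Pool.Agent.Helper88.TK.M_Rel
import Pool.Agent.Helper88.TK.M_Rll
import Pool.Agent.Helper2.TK.M_ExA
import Pool.Agent.Helper67.TK.M_ExB
import Pool.Agent.Helper77.TK.M_Uni
import Pool.Agent.Helper99.TK.M_HkB
import Pool.Agent.Helper9.TK.M_HkF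
import Pool.Agent.Helper81.TK.M_LdU
import Pool.Agent.Helper16.TK.M_LdV
import Pool.Agent.Helper71.TK.M_Om
import Pool.Agent.Helper53.TK.M_Lw1
import Pool.Agent.Helper8.TK.M_Sur
import Pool.Agent.Helper69.TK.M_Led
import Pool.Agent.Helper51.TK.M_Itr
import Pool.Agent.Helper36.TK.M_Tri
import Pool.Agent.Helper89.TK.M_Lifp
import Pool.Agent.Helper74.TK.M_Lif
import Pool.Agent.Helper79.TK.M_Unb
import Pool.Agent.Helper64.TK.M_Cnt
import Pool.Agent.Helper3.TK.M_LBof
import Pool.Agent.Helper46.TKC.M_Hk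
import Pool.Agent.Helper48.TKC.M_HkS
import Pool.Agent.Helper38.CV.M_Far
import Pool.Agent.Helper55.CV.M_Fex
import Pool.Agent.Helper63.W5.M_PlA
import Pool.Agent.Helper16.W5.M_Trm
import Pool.Agent.Helper7.W5.M_Low0
import Pool.Agent.Helper63.W5.M_Prd
import Pool.Agent.Helper86.W5.M_SubA
import Pool.Agent.Helper36.W5.M_SubB
import Pool.Agent.Helper72.W5.M_Nfa
import Pool.Agent.Helper29.W5.M_Nf
import Pool.Agent.Helper98.W5.M_Exp
import Pool.Agent.Helper81.W5.M_Lw1
import Pool.Agent.Helper32.W5.M_Bb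

/-!
# Project TK: the lower bound for levels `3·5^n`, `W_3 = +1`
-/

set_option autoImplicit false

namespace Pool.Agent.Helper4.TK

open Pool.Agent.Helper14.W5 (S5PlA S5Trm S5Low0 S5Nfa S5Exp S5Lw1 S5Bb)

theorem plK : TPlK := hPlK Pool.Agent.Helper63.W5.hPlA

theorem trm : S5Trm := Pool.Agent.Helper16.W5.hTrm

theorem edgT : TEdg := Pool.Agent.Helper61.TK.hEdg plK

theorem treT : TTre := Pool.Agent.Helper88.TK.hTre edgT plK

theorem relT : TRel := Pool.Agent.Helper88.TK.hRel treT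

theorem exT : TEx := hEx (Pool.Agent.Helper2.TK.hExA trm)
  (Pool.Agent.Helper67.TK.hExB plK Pool.Agent.Helper55.CV.hFex Pool.Agent.Helper38.CV.hFar)

theorem uniT : TUni := Pool.Agent.Helper77.TK.hUni edgT plK Pool.Agent.Helper38.CV.hFar

theorem lifpT : TLifp := Pool.Agent.Helper89.TK.hLifp trm

theorem lifT : TLif := Pool.Agent.Helper74.TK.hLif relT lifpT exT uniT

theorem hkT : SKHk := Pool.Agent.Helper46.TKC.hHk

theorem hksT : SKHkS := Pool.Agent.Helper48.TKC.hHkS Pool.Agent.Helper46.TKC.hHk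

theorem hkBT : THkB := Pool.Agent.Helper99.TK.hHkB hkT hksT

theorem hkFT : THkF := Pool.Agent.Helper9.TK.hHkF hkBT edgT plK

theorem triT : TTri := by
  have low0 := Pool.Agent.Helper7.W5.hLow0
  have prd := Pool.Agent.Helper63.W5.hPrd
  have subA := Pool.Agent.Helper86.W5.hSubA low0 prd
  have subB := Pool.Agent.Helper36.W5.hSubB low0 prd
  have nfa := Pool.Agent.Helper72.W5.hNfa low0 subA subB
  have nf := Pool.Agent.Helper29.W5.hNf trm low0 nfa subA
  have exp := Pool.Agent.Helper98.W5.hExp low0 nfa nf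
  have lw := Pool.Agent.Helper81.W5.hLw1 low0 nfa nf
  have bb := Pool.Agent.Helper32.W5.hBb
  have lw1 := Pool.Agent.Helper53.TK.hLw1 low0 nfa nf bb
  have rll := Pool.Agent.Helper88.TK.hRll
  have hk2 := hHk2 hkFT treT trm
  have hk7 := hHk7 hkFT treT trm
  have hk11 := hHk11 hkFT treT trm
  have hk13 := hHk13 hkFT treT trm
  have hk19 := hHk19 hkFT treT trm
  have hk29 := hHk29 hkFT treT trm
  have ldU := Pool.Agent.Helper81.TK.hLdU trm low0 nfa exp rll hCeG hCeU
  have ldV := Pool.Agent.Helper16.TK.hLdV trm low0 nfa exp rll hCeG hCeV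
  have omB := Pool.Agent.Helper71.TK.hOmB low0 hCeB
  have omC := Pool.Agent.Helper71.TK.hOmC trm low0 rll hCeG hCeC
  have omD := Pool.Agent.Helper71.TK.hOmD trm low0 rll hCeG hCeD
  have sur := Pool.Agent.Helper8.TK.hSur trm low0 nfa lw lw1 bb
  have led := Pool.Agent.Helper69.TK.hLed trm low0 nfa lw lw1 bb sur
  have itr := Pool.Agent.Helper51.TK.hItr relT hkBT hk2 hk7 hk11 hk13 hk19 hk29 low0 ldU ldV
    omB omC omD
  exact Pool.Agent.Helper36.TK.hTri low0 bb led exT itr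

theorem cntT : TCnt := Pool.Agent.Helper64.TK.hCnt

/-- The lower bound for levels `3·5^n`. -/
theorem lbK5 : LBK 5 3 ddK5 :=
  Pool.Agent.Helper3.TK.hLBof triT lifT Pool.Agent.Helper79.TK.hUnb cntT

end Pool.Agent.Helper4.TK
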